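import Pool.Agent.helper75.WB.SpecI

/-!
# Project wb, Part I, row IMAN
-/

set_option autoImplicit false

namespace Pool.Agent.WB

open Finset

theorem IMAN_q78 (X0 M Y Q d z y y' p p' : ℝ) (hY : 0 < Y) (hd : Y ≤ |d|) (hX : 0 ≤ X0)
    (hy : |y| ≤ X0) (hy' : |y'| ≤ X0) (hp0 : 0 ≤ p) (hp0' : 0 ≤ p') (hp : p ≤ 2 * M)
    (hp' : p' ≤ 2 * M) (he : d * z = y' * p - y * p') (hQ : 4 * X0 * M / Y ≤ Q) : |z| ≤ Q := by
  refine le_trans ?_ hQ
  rw [le_div_iff₀ hY]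
  have h1 : |d| * |z| ≤ 4 * X0 * M := by
    rw [← abs_mul, he]
    calc |y' * p - y * p'| ≤ |y' * p| + |y * p'| := abs_sub _ _
      _ = |y'| * p + |y| * p' := by rw [abs_mul, abs_mul, abs_of_nonneg hp0, abs_of_nonneg hp0']
      _ ≤ X0 * (2 * M) + X0 * (2 * M) := by gcongr
      _ = 4 * X0 * M := by ring
  have h2 : Y * |z| ≤ |d| * |z| := mul_le_mul_of_nonneg_right hd (abs_nonneg z)
  linarith

theorem IMAN (hIBAL : IBAL_stmt) (hISHR : ISHR_stmt) (hIZU : IZU_stmt) : IMAN_stmt := by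
  classical
  intro M X0 Y Q s₀ κ hs1 hsM hY h2Y h4X h4s hX hQ hprs p hp p' hp' hne
  have hs0 : 0 < s₀ := by linarith
  have hM0 : 0 < M := by linarith
  obtain ⟨hpp, hpM, hp2⟩ := mem_prs.mp hp
  obtain ⟨hpp', hpM', hp2'⟩ := mem_prs.mp hp'
  have hX0 : 0 ≤ X0 := by
    refine le_trans ?_ hX
    positivity
  set B : ℕ → Prop := fun l => ∃ x x' : ℤ, (x ≠ 0 ∨ x' ≠ 0) ∧ |(x : ℝ)| < s₀ ∧
      |(x' : ℝ)| < s₀ ∧ (l : ℤ) ∣ x' * p - x * p' with hB
  have hZ : (((prs Y).filter B).card : ℝ) ≤ κ * (2 * s₀ + 1) ^ 2 := by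
    refine hISHR M Y s₀ κ p p' _ hp hp' hne hs1 hsM hY h4s ?_
    intro l hl
    rw [mem_filter, mem_prs] at hl
    exact ⟨hl.1.1, hl.1.2.1, hl.2⟩
  have hZ2 : 2 * ((prs Y).filter B).card ≤ (prs Y).card := by
    have : (2 : ℝ) * (((prs Y).filter B).card : ℝ) ≤ ((prs Y).card : ℝ) := by linarith
    exact_mod_cast this
  have hsplit : ((prs Y).filter B).card + ((prs Y).filter (fun l => ¬ B l)).card =
      (prs Y).card := by
    exact card_filter_add_card_filter_not B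
  have hgood : ∀ l ∈ (prs Y).filter (fun l => ¬ B l), ∃ c ∈ Ch Q, Rel X0 c p p' l := by
    intro l hl
    rw [mem_filter, mem_prs] at hl
    obtain ⟨⟨hlp, hYl, hl2⟩, hnB⟩ := hl
    have hlt : l < p := by
      have : (l : ℝ) < (p : ℝ) := by linarith
      exact_mod_cast this
    have hlt' : l < p' := by
      have : (l : ℝ) < (p' : ℝ) := by linarith
      exact_mod_cast this
    obtain ⟨x, y, x', y', q, q', h1, h2, h3, h4, h5, h6, h7, h8⟩ :=
      hIBAL p p' l s₀ hpp hpp' hne hlp hlt hlt' hs0 (by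
        intro x x' h0 hd
        by_contra hcon
        rw [not_le, max_lt_iff] at hcon
        exact hnB ⟨x, x', h0, hcon.1, hcon.2, hd⟩)
    have hle : (l : ℝ) / s₀ + Real.sqrt l ≤ X0 := by
      refine le_trans ?_ hX
      gcongr
    have hdet : Y ≤ |(((x * y' - x' * y : ℤ)) : ℝ)| := by
      have : |(((x * y' - x' * y : ℤ)) : ℝ)| = (((x * y' - x' * y).natAbs : ℕ) : ℝ) := by
        rw [Nat.cast_natAbs, Int.cast_abs]
      rw [this, h3]
      exact hYl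
    have e1 : (((x * y' - x' * y : ℤ)) : ℝ) * (q : ℝ) = (y' : ℝ) * (p : ℝ) - (y : ℝ) * (p' : ℝ) := by
      have : (x * y' - x' * y) * q = y' * p - y * p' := by
        rw [← h1, ← h2]; ring
      exact_mod_cast this
    have e2 : (((x * y' - x' * y : ℤ)) : ℝ) * (q' : ℝ) = (x : ℝ) * (p' : ℝ) - (x' : ℝ) * (p : ℝ) := by
      have : (x * y' - x' * y) * q' = x * p' - x' * p := by
        rw [← h1, ← h2]; ring
      exact_mod_cast this
    refine ⟨(q, q'), ?_, x, y, x', y', h1, h2, h5.trans hle, h6.trans hle, h7.trans hle,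
      h8.trans hle, h3⟩
    rw [mem_Ch]
    refine ⟨?_, ?_, h4⟩
    · exact IMAN_q78 X0 M Y Q _ _ y y' p p' (by linarith) hdet hX0 (h6.trans hle)
        (h8.trans hle) (by positivity) (by positivity) hp2.le hp2'.le e1 hQ
    · exact IMAN_q78 X0 M Y Q _ _ x' x p' p (by linarith) hdet hX0 (h7.trans hle)
        (h5.trans hle) (by positivity) (by positivity) hp2'.le hp2.le e2 hQ
  choose! f hf using hgood
  have hinj : ((prs Y).filter (fun l => ¬ B l)).card ≤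
      ((Ch Q).filter (fun c => RelD X0 Y c p p')).card := by
    refine card_le_card_of_injOn f ?_ ?_
    · intro l hl
      have hl' := hf l hl
      rw [mem_coe] at hl ⊢
      rw [mem_filter] at hl ⊢
      exact ⟨hl'.1, l, hl.1, hl'.2⟩
    · intro l hl l₁ hl₁ he
      obtain ⟨hc, x, y, x', y', a1, a2, a3, a4, a5, a6, a7⟩ := hf l hl
      obtain ⟨-, x₁, y₁, x₁', y₁', b1, b2, b3, b4, b5, b6, b7⟩ := hf l₁ hl₁
      rw [← he] at b1 b2
      have hco := (mem_Ch.mp hc).2.2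
      obtain ⟨c1, c2⟩ := hIZU M X0 p _ _ x y x₁ y₁ hco hpM h4X a1 b1 a3 a4 b3 b4
      obtain ⟨c3, c4⟩ := hIZU M X0 p' _ _ x' y' x₁' y₁' hco hpM' h4X a2 b2 a5 a6 b5 b6
      rw [← a7, ← b7, c1, c2, c3, c4]
  omega

end Pool.Agent.WB
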