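import Pool.Agent.helper78.WB.AllII
import Pool.Agent.helper28.WB.IBAL
import Pool.Agent.helper82.WB.ICC
import Pool.Agent.helper99.WB.ICOP
import Pool.Agent.helper9.WB.IF1
import Pool.Agent.helper18.WB.IF2
import Pool.Agent.helper83.WB.IF3
import Pool.Agent.helper34.WB.ILC
import Pool.Agent.helper64.WB.INA
import Pool.Agent.helper10.WB.INB
import Pool.Agent.helper40.WB.INP
import Pool.Agent.helper69.WB.IPD
import Pool.Agent.helper54.WB.IPG
import Pool.Agent.helper20.WB.IPN
import Pool.Agent.helper74.WB.ISC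
import Pool.Agent.helper43.WB.ISG
import Pool.Agent.helper15.WB.ITL
import Pool.Agent.helper75.WB.IWF
import Pool.Agent.helper2.WB.IZU
import Pool.Agent.helper45.WB.ISHR
import Pool.Agent.helper92.WB.ITHU
import Pool.Agent.helper33.WB.ICMP
import Pool.Agent.helper39.WB.ILA
import Pool.Agent.helper38.WB.ILN
import Pool.Agent.helper77.WB.IPR
import Pool.Agent.helper78.WB.IMAN

/-!
# Project wb: assembly

`WBA : WBA_stmt`: for every `1/2 < α < 1`, `ε > 0`, `N ≥ N₀` and every choice `a` of one residue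
class for each prime, `N ^ (3/2 - α - ε) ≤ S_a(N)`.
-/

namespace Pool.Agent.WB

theorem WBA : WBA_stmt := by
  have ibal : IBAL_stmt := IBAL ITHU ICMP
  have ishr : ISHR_stmt := ISHR IPD
  have iman : IMAN_stmt := IMAN ibal ishr IZU
  have isg : ISG_stmt := ISG ITL ICC
  have ilc : ILC_stmt := ILC ILA ICOP IZU
  have iln : ILN_stmt := ILN CL2 ilc INP IF1 IF2 IF3
  have isc : ISC_stmt := ISC iln
  have ipn : IPN_stmt := IPN IPG IPR
  have ina : INA_stmt := INA IPR
  exact IWF iman isg isc IPR ipn ina INB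

end Pool.Agent.WB
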