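import Pool.Agent.helper79.WB.SpecII

/-!
# Project wb, Part II, row EXE
-/

set_option autoImplicit false

namespace Pool.Agent.WB

open MvPolynomial

theorem EXE (h1 : DIV_stmt) (h2 : EXC_stmt) (h3 : CNT_stmt) : EXE_stmt := by
  classical
  intro N D ξ M A B F G hN hξ hM hD hG hF hA hB hmul hp
  have key : ∀ ζ ∈ A, ((F.filter fun e => e.1 = ζ).card : ℝ) ≤
      M * ((4 * (D : ℝ) + 8) / ξ) := by
    intro ζ hζ
    obtain ⟨g, hg0, hgb, hgd⟩ := h2 N D G ζ hN hD hG (hA ζ hζ).2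
    refine h3 N ξ (4 * (D : ℝ) + 8) M g _ hN hξ hM hg0 ?_ ?_ ?_
    · calc |(g : ℝ)| = ((|g| : ℤ) : ℝ) := by push_cast; rfl
        _ ≤ (((N : ℤ) ^ (4 * D + 8) : ℤ) : ℝ) := by exact_mod_cast hgb
        _ = (N : ℝ) ^ (4 * (D : ℝ) + 8) := by
          push_cast
          rw [← Real.rpow_natCast]
          push_cast
          rfl
    · intro e he
      rw [Finset.mem_filter] at he
      obtain ⟨heF, he1⟩ := he
      obtain ⟨hA1, hB1, hprime, hge, u, v, hu, hv⟩ := hF e heF
      refine ⟨hprime, hge, ?_⟩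
      obtain ⟨p, hpG, ⟨n, hn⟩, h0, h1'⟩ := hp e heF
      have hdt : dt e.2 e.1 = - dt e.1 e.2 := by unfold dt; ring
      have hd := h1 n p e.2 e.1 u v hn (hB e.2 hB1).1 hv hu
        (by rw [hdt, Int.natAbs_neg]; exact hprime) h0
      rw [hdt, neg_dvd] at hd
      rw [he1] at h1'
      have h4 : eval e.1 p ∣ g := by
        rw [he1]
        exact hgd p hpG h1'
      exact hd.trans h4
    · intro l
      refine le_trans ?_ (hmul ζ l)
      have : ((F.filter fun e => e.1 = ζ).filter fun e => (dt e.1 e.2).natAbs = l) ⊆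
          F.filter fun e => e.1 = ζ ∧ (dt e.1 e.2).natAbs = l := by
        intro e he
        rw [Finset.mem_filter, Finset.mem_filter] at he
        rw [Finset.mem_filter]
        exact ⟨he.1.1, he.1.2, he.2⟩
      exact_mod_cast Finset.card_le_card this
  have hc : F.card = ∑ ζ ∈ A, (F.filter fun e => e.1 = ζ).card :=
    Finset.card_eq_sum_card_fiberwise (fun e he => (hF e he).1)
  rw [hc]
  push_cast
  calc ∑ ζ ∈ A, ((F.filter fun e => e.1 = ζ).card : ℝ)
      ≤ ∑ ζ ∈ A, M * ((4 * (D : ℝ) + 8) / ξ) := Finset.sum_le_sum key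
    _ = (A.card : ℝ) * (M * ((4 * (D : ℝ) + 8) / ξ)) := by
        rw [Finset.sum_const, nsmul_eq_mul]

end Pool.Agent.WB
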