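import Pool.Agent.helper78.WB.AllIII
import Pool.Agent.helper76.WB.CNT
import Pool.Agent.helper23.WB.COMB
import Pool.Agent.helper67.WB.DIV
import Pool.Agent.helper56.WB.DY
import Pool.Agent.helper97.WB.EXC
import Pool.Agent.helper70.WB.FACT
import Pool.Agent.helper43.WB.HF
import Pool.Agent.helper27.WB.LINE
import Pool.Agent.helper61.WB.MU
import Pool.Agent.helper5.WB.MUN
import Pool.Agent.helper49.WB.NUMA
import Pool.Agent.helper96.WB.NUMB
import Pool.Agent.helper79.WB.NUMC
import Pool.Agent.helper4.WB.SAMP
import Pool.Agent.helper25.WB.SG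
import Pool.Agent.helper71.WB.VAN
import Pool.Agent.helper96.WB.CLA
import Pool.Agent.helper78.WB.EXE

/-!
# Project wb, Part II: assembly

`CL2 : CL2_stmt` (the chart lemma) from the rows of the Part II specification and Part III.
-/

namespace Pool.Agent.WB

theorem CL2 : CL2_stmt := by
  have dim3 : DIM3_stmt := DIM3
  have size : SIZE_stmt := SIZE dim3
  have sg : SG_stmt := SG dim3
  have van : VAN_stmt := VAN SAMP sg DIV CNT size
  have fact : FACT_stmt := FACT HF
  have exe : EXE_stmt := EXE DIV (EXC dim3) CNT
  have comb : COMB_stmt := COMB fact exe LINE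
  exact CLA DY MU MUN van comb NUMA NUMB NUMC PBN

end Pool.Agent.WB
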