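import Pool.Agent.helper78.WB.SpecIII

/-! Project wb, row CELL. -/

set_option autoImplicit false

namespace Pool.Agent.WB

open MvPolynomial

theorem CELL (h1 : IMG_stmt) (h2 : PIG_stmt) (h3 : SIZE_stmt) (h4 : BZ_stmt) : CELL_stmt := by
  intro ℓ hℓ j N d m K' p hirr hhom hd hK' hm hsz C hNP hC hprop hgood
  have hprime : ℓ.Prime := hℓ.out
  have hlpos : 0 < ℓ := hprime.pos
  -- number of value functions
  have hcount := h1 ℓ j C p d m (2 * K' - 1) (d - 1) hhom (fun ζ hζ => ⟨(hC ζ hζ).2.1, (hC ζ hζ).2.2⟩)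
    hprop hgood
  have hexp : (2 * K' - 1) * (2 * K' - 1 + 1) / 2 = (2 * K' - 1) * K' := by
    have : (2 * K' - 1) * (2 * K' - 1 + 1) = ((2 * K' - 1) * K') * 2 := by
      have h : 2 * K' - 1 + 1 = 2 * K' := by omega
      rw [h]
      ring
    rw [this, Nat.mul_div_cancel _ (by norm_num)]
  rw [hexp] at hcount
  have hs3 : 0 < s3 (d - 1) := by
    unfold s3
    have : 2 ≤ (d - 1 + 1) * (d - 1 + 2) := by
      have h : d - 1 + 1 = d := by omega
      rw [h]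
      nlinarith
    omega
  have hlt : (valSet (d - 1) (ℓ ^ (2 * K' - 1)) C).ncard < (ℓ ^ K' + 1) ^ s3 (d - 1) := by
    calc (valSet (d - 1) (ℓ ^ (2 * K' - 1)) C).ncard ≤ ℓ ^ (m * ((2 * K' - 1) * K')) := hcount
      _ ≤ ℓ ^ (K' * s3 (d - 1)) := by
          apply Nat.pow_le_pow_right hlpos
          calc m * ((2 * K' - 1) * K') = K' * (m * (2 * K' - 1)) := by ring
            _ ≤ K' * s3 (d - 1) := Nat.mul_le_mul_left _ hm
      _ = (ℓ ^ K') ^ s3 (d - 1) := by rw [pow_mul]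
      _ < (ℓ ^ K' + 1) ^ s3 (d - 1) := Nat.pow_lt_pow_left (Nat.lt_succ_self _) hs3.ne'
  obtain ⟨Q, hQ0, hQh, hQc, hQv⟩ := h2 (d - 1) (ℓ ^ (2 * K' - 1)) (ℓ ^ K') C (pow_pos hlpos _) hlt
  -- Q vanishes on C
  have hQz : ∀ ζ ∈ C, eval ζ Q = 0 := by
    intro ζ hζ
    have hb := h3 (d - 1) (ℓ ^ K') N Q ζ hQh hQc (hC ζ hζ).1
    have hdiv := hQv ζ hζ
    apply Int.eq_zero_of_abs_lt_dvd hdiv
    have h5 : (s3 (d - 1) : ℤ) * ((ℓ ^ K' : ℕ) : ℤ) * (N : ℤ) ^ (d - 1)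
        = ((s3 (d - 1) * N ^ (d - 1) * ℓ ^ K' : ℕ) : ℤ) := by push_cast; ring
    rw [h5] at hb
    refine lt_of_le_of_lt hb ?_
    have h6 : s3 (d - 1) * N ^ (d - 1) * ℓ ^ K' < ℓ ^ (2 * K' - 1) := by
      calc s3 (d - 1) * N ^ (d - 1) * ℓ ^ K' < ℓ ^ (K' - 1) * ℓ ^ K' :=
            Nat.mul_lt_mul_of_pos_right hsz (pow_pos hlpos _)
        _ = ℓ ^ (2 * K' - 1) := by
            rw [← pow_add]
            congr 1
            omega
    exact_mod_cast h6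
  -- p does not divide Q
  have hpd : ¬ p ∣ Q := by
    rintro ⟨R, hR⟩
    have hp0 : p ≠ 0 := hirr.ne_zero
    have hR0 : R ≠ 0 := by
      rintro rfl
      exact hQ0 (by rw [hR, mul_zero])
    have h7 : Q.totalDegree = p.totalDegree + R.totalDegree := by
      rw [hR]
      exact totalDegree_mul_of_isDomain hp0 hR0
    rw [hQh.totalDegree hQ0, hhom.totalDegree hp0] at h7
    omega
  refine h4 p Q d (d - 1) hirr hhom (by omega) hQh hpd C hNP ?_
  intro ζ hζ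
  refine ⟨?_, (hC ζ hζ).2.2, hQz ζ hζ⟩
  rintro rfl
  exact (hC 0 hζ).2.1 (by simp)

end Pool.Agent.WB
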