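import Pool.Agent.helper78.WB.SpecIII

/-! Project wb, row LS (span lemma). -/

set_option autoImplicit false

namespace Pool.Agent.WB

open MvPolynomial

namespace LSaux

/-- value of a monomial -/
def ph {R : Type} [CommRing R] {ι : Type} (a : ι → Fin 2 → R) (μ : Fin 2 →₀ ℕ) (i : ι) : R :=
  ∏ t : Fin 2, a i t ^ μ t

/-- in the span of `E` up to `π ^ r` -/
def MM {R : Type} [CommRing R] (π : R) {ι : Type} (a : ι → Fin 2 → R)
    (E : Finset (Fin 2 →₀ ℕ)) (r : ℕ) (g : ι → R) : Prop :=
  ∃ c : (Fin 2 →₀ ℕ) → R, ∀ i, π ^ r ∣ g i - ∑ μ ∈ E, c μ * ph a μ i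

variable {R : Type} [CommRing R] {π : R} {ι : Type} {a : ι → Fin 2 → R}
  {E : Finset (Fin 2 →₀ ℕ)}

lemma MM.add {r : ℕ} {g h : ι → R} (hg : MM π a E r g) (hh : MM π a E r h) :
    MM π a E r (fun i => g i + h i) := by
  obtain ⟨c, hc⟩ := hg
  obtain ⟨d, hd⟩ := hh
  refine ⟨fun μ => c μ + d μ, fun i => ?_⟩
  have : g i + h i - ∑ μ ∈ E, (c μ + d μ) * ph a μ i
      = (g i - ∑ μ ∈ E, c μ * ph a μ i) + (h i - ∑ μ ∈ E, d μ * ph a μ i) := by
    rw [show ∑ μ ∈ E, (c μ + d μ) * ph a μ i
      = ∑ μ ∈ E, c μ * ph a μ i + ∑ μ ∈ E, d μ * ph a μ i from by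
        rw [← Finset.sum_add_distrib]; exact Finset.sum_congr rfl (fun μ _ => by ring)]
    ring
  rw [this]
  exact dvd_add (hc i) (hd i)

lemma MM.smul {r : ℕ} {g : ι → R} (hg : MM π a E r g) (b : R) :
    MM π a E r (fun i => b * g i) := by
  obtain ⟨c, hc⟩ := hg
  refine ⟨fun μ => b * c μ, fun i => ?_⟩
  have : b * g i - ∑ μ ∈ E, (b * c μ) * ph a μ i
      = b * (g i - ∑ μ ∈ E, c μ * ph a μ i) := by
    rw [mul_sub, Finset.mul_sum]
    congr 1
    exact Finset.sum_congr rfl (fun μ _ => by ring)
  rw [this]
  exact Dvd.dvd.mul_left (hc i) b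

lemma MM.smulpi {r : ℕ} {g : ι → R} (hg : MM π a E r g) (b : R) :
    MM π a E (r + 1) (fun i => π * b * g i) := by
  obtain ⟨c, hc⟩ := hg.smul b
  refine ⟨fun μ => π * c μ, fun i => ?_⟩
  have : π * b * g i - ∑ μ ∈ E, (π * c μ) * ph a μ i
      = π * (b * g i - ∑ μ ∈ E, c μ * ph a μ i) := by
    rw [mul_sub, Finset.mul_sum]
    congr 1
    · ring
    · exact Finset.sum_congr rfl (fun μ _ => by ring)
  rw [this, pow_succ, mul_comm (π ^ r)]
  exact mul_dvd_mul_left _ (hc i)

lemma MM.zero {r : ℕ} : MM π a E r (fun _ => 0) :=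
  ⟨fun _ => 0, fun i => by simp⟩

lemma MM.sum {r : ℕ} {κ : Type} (s : Finset κ) (g : κ → ι → R)
    (hg : ∀ k ∈ s, MM π a E r (g k)) : MM π a E r (fun i => ∑ k ∈ s, g k i) := by
  classical
  induction s using Finset.induction_on with
  | empty => simpa using MM.zero
  | insert x s hx ih =>
    have h1 := hg x (Finset.mem_insert_self x s)
    have h2 := ih (fun k hk => hg k (Finset.mem_insert_of_mem hk))
    have h3 := h1.add h2
    simpa [Finset.sum_insert hx] using h3

lemma ph_add (μ ν : Fin 2 →₀ ℕ) (i : ι) : ph a (μ + ν) i = ph a μ i * ph a ν i := by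
  unfold ph
  rw [← Finset.prod_mul_distrib]
  exact Finset.prod_congr rfl (fun t _ => by rw [Finsupp.add_apply, pow_add])

lemma deg2 (μ : Fin 2 →₀ ℕ) : μ.degree = μ 0 + μ 1 := by
  rw [Finsupp.degree_eq_sum, Fin.sum_univ_two]

lemma ph_dvd (ha : ∀ i t, π ∣ a i t) (μ : Fin 2 →₀ ℕ) (i : ι) : π ^ μ.degree ∣ ph a μ i := by
  unfold ph
  rw [deg2, pow_add, Fin.prod_univ_two]
  exact mul_dvd_mul (pow_dvd_pow_of_dvd (ha i 0) _) (pow_dvd_pow_of_dvd (ha i 1) _)

lemma eval_ph (f : MvPolynomial (Fin 2) R) (i : ι) :
    eval (a i) f = ∑ μ ∈ f.support, coeff μ f * ph a μ i := by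
  rw [eval_eq']
  rfl

/-- the exponent set -/
noncomputable def EE (μ₀ : Fin 2 →₀ ℕ) (K : ℕ) : Finset (Fin 2 →₀ ℕ) := by
  classical
  exact ((Finset.range K ×ˢ Finset.range K).image
    (fun x => Finsupp.single 0 x.1 + Finsupp.single 1 x.2)).filter
      (fun μ => μ.degree < K ∧ ¬ μ₀ ≤ μ)

lemma single_eta (μ : Fin 2 →₀ ℕ) : Finsupp.single 0 (μ 0) + Finsupp.single 1 (μ 1) = μ := by
  ext t
  fin_cases t <;> simp

lemma mem_EE {μ₀ : Fin 2 →₀ ℕ} {K : ℕ} {μ : Fin 2 →₀ ℕ} :
    μ ∈ EE μ₀ K ↔ μ.degree < K ∧ ¬ μ₀ ≤ μ := by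
  classical
  unfold EE
  rw [Finset.mem_filter, Finset.mem_image]
  constructor
  · rintro ⟨_, h⟩
    exact h
  · intro h
    refine ⟨⟨(μ 0, μ 1), ?_, single_eta μ⟩, h⟩
    have := h.1
    rw [deg2] at this
    rw [Finset.mem_product, Finset.mem_range, Finset.mem_range]
    constructor <;> dsimp only <;> omega

lemma le2 (μ₀ μ : Fin 2 →₀ ℕ) : μ₀ ≤ μ ↔ μ₀ 0 ≤ μ 0 ∧ μ₀ 1 ≤ μ 1 := by
  constructor
  · intro h
    exact ⟨h 0, h 1⟩
  · rintro ⟨h0, h1⟩ t
    fin_cases t
    · exact h0
    · exact h1

lemma card_EE (μ₀ : Fin 2 →₀ ℕ) (K k : ℕ) :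
    ((EE μ₀ K).filter (fun μ => μ.degree < k)).card ≤ μ₀.degree * k := by
  classical
  have hsub : (EE μ₀ K).filter (fun μ => μ.degree < k) ⊆
      ((Finset.range k ×ˢ Finset.range (μ₀ 0)).image
        (fun x => (Finsupp.single 0 x.2 + Finsupp.single 1 (x.1 - x.2) : Fin 2 →₀ ℕ))) ∪
      ((Finset.range k ×ˢ Finset.range (μ₀ 1)).image
        (fun x => (Finsupp.single 0 (x.1 - x.2) + Finsupp.single 1 x.2 : Fin 2 →₀ ℕ))) := by
    intro μ hμ
    rw [Finset.mem_filter, mem_EE] at hμ
    obtain ⟨⟨_, h2⟩, h3⟩ := hμ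
    rw [le2] at h2
    rw [Finset.mem_union, Finset.mem_image, Finset.mem_image]
    rw [deg2] at h3
    by_cases h0 : μ 0 < μ₀ 0
    · left
      refine ⟨(μ 0 + μ 1, μ 0), ?_, ?_⟩
      · rw [Finset.mem_product, Finset.mem_range, Finset.mem_range]
        exact ⟨h3, h0⟩
      · dsimp only
        rw [Nat.add_sub_cancel_left]
        exact single_eta μ
    · right
      have h1 : μ 1 < μ₀ 1 := by
        by_contra h
        exact h2 ⟨not_lt.mp h0, not_lt.mp h⟩
      refine ⟨(μ 0 + μ 1, μ 1), ?_, ?_⟩
      · rw [Finset.mem_product, Finset.mem_range, Finset.mem_range]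
        exact ⟨h3, h1⟩
      · dsimp only
        rw [Nat.add_sub_cancel]
        exact single_eta μ
  refine (Finset.card_le_card hsub).trans ((Finset.card_union_le _ _).trans ?_)
  have e1 := Finset.card_image_le (s := Finset.range k ×ˢ Finset.range (μ₀ 0))
    (f := fun x => (Finsupp.single 0 x.2 + Finsupp.single 1 (x.1 - x.2) : Fin 2 →₀ ℕ))
  have e2 := Finset.card_image_le (s := Finset.range k ×ˢ Finset.range (μ₀ 1))
    (f := fun x => (Finsupp.single 0 (x.1 - x.2) + Finsupp.single 1 x.2 : Fin 2 →₀ ℕ))
  rw [Finset.card_product, Finset.card_range, Finset.card_range] at e1 e2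
  rw [deg2]
  calc _ ≤ k * μ₀ 0 + k * μ₀ 1 := Nat.add_le_add e1 e2
    _ = (μ₀ 0 + μ₀ 1) * k := by ring

end LSaux

open LSaux

theorem LS : LS_stmt := by
  classical
  intro R _ π hunit ι a ha P hP m μ₁ hμ₁ hμ₁c K
  -- least degree
  set S' : Finset (Fin 2 →₀ ℕ) := P.support.filter (fun μ => ¬ π ∣ coeff μ P) with hS'
  have hS'ne : S'.Nonempty := by
    refine ⟨μ₁, ?_⟩
    rw [hS', Finset.mem_filter, mem_support_iff]
    refine ⟨fun h => hμ₁c ?_, hμ₁c⟩
    rw [h]
    exact dvd_zero _
  obtain ⟨μ₂, hμ₂, hmin⟩ := Finset.exists_min_image S' (fun μ => μ.degree) hS'ne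
  set S'' : Finset (Fin 2 →₀ ℕ) := S'.filter (fun μ => μ.degree = μ₂.degree) with hS''
  have hS''ne : S''.Nonempty := ⟨μ₂, by rw [hS'', Finset.mem_filter]; exact ⟨hμ₂, rfl⟩⟩
  obtain ⟨μ₀, hμ₀, hmax⟩ := Finset.exists_max_image S'' (fun μ => μ 0) hS''ne
  rw [hS'', Finset.mem_filter] at hμ₀
  obtain ⟨hμ₀S, hμ₀d⟩ := hμ₀
  have hμ₀S2 := hμ₀S
  rw [hS', Finset.mem_filter] at hμ₀S2
  obtain ⟨hμ₀s, hμ₀c⟩ := hμ₀S2
  have hm : μ₀.degree ≤ m := by
    rw [hμ₀d]
    refine le_trans (hmin μ₁ ?_) hμ₁
    rw [hS', Finset.mem_filter, mem_support_iff]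
    refine ⟨fun h => hμ₁c ?_, hμ₁c⟩
    rw [h]
    exact dvd_zero _
  have hu : IsUnit (coeff μ₀ P) := by
    rcases hunit (coeff μ₀ P) with h | h
    · exact h
    · exact absurd h hμ₀c
  obtain ⟨v, hv⟩ := hu.exists_left_inv
  refine ⟨EE μ₀ K, fun k => (card_EE μ₀ K k).trans (Nat.mul_le_mul_right k hm), ?_⟩
  -- the claim
  have claim : ∀ r ≤ K, ∀ μ : Fin 2 →₀ ℕ, MM π a (EE μ₀ K) r (ph a μ) := by
    intro r
    induction r with
    | zero => intro _ μ; exact ⟨fun _ => 0, fun i => by simp⟩
    | succ r ih =>
      intro hr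
      have ihr := ih (by omega)
      have key : ∀ d x : ℕ, ∀ μ : Fin 2 →₀ ℕ, K - μ.degree = d → μ 0 = x →
          MM π a (EE μ₀ K) (r + 1) (ph a μ) := by
        intro d
        induction d using Nat.strong_induction_on with
        | _ d ihd =>
          intro x
          induction x using Nat.strong_induction_on with
          | _ x ihx =>
            intro μ hd hx
            by_cases hK : K ≤ μ.degree
            · refine ⟨fun _ => 0, fun i => ?_⟩
              simp only [zero_mul, Finset.sum_const_zero, sub_zero]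
              exact (pow_dvd_pow π (hr.trans hK)).trans (ph_dvd ha μ i)
            · rw [not_le] at hK
              by_cases hle : μ₀ ≤ μ
              · -- reduction
                obtain ⟨ν, hν⟩ : ∃ ν, μ = μ₀ + ν := ⟨μ - μ₀, by
                  rw [add_tsub_cancel_of_le hle]⟩
                have hsum : ∀ i, ph a μ i = ∑ ρ ∈ P.support.erase μ₀,
                    (-(v * coeff ρ P)) * ph a (ρ + ν) i := by
                  intro i
                  have h1 := hP i
                  rw [eval_ph, ← Finset.add_sum_erase _ _ hμ₀s] at h1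
                  have h2 : coeff μ₀ P * ph a μ₀ i
                      = - ∑ ρ ∈ P.support.erase μ₀, coeff ρ P * ph a ρ i := by
                    linear_combination h1
                  calc ph a μ i = (v * coeff μ₀ P) * ph a μ₀ i * ph a ν i := by
                        rw [hv, hν, ph_add]; ring
                    _ = v * (coeff μ₀ P * ph a μ₀ i) * ph a ν i := by ring
                    _ = _ := by
                        rw [h2, mul_neg, neg_mul, Finset.mul_sum, Finset.sum_mul,
                          ← Finset.sum_neg_distrib]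
                        refine Finset.sum_congr rfl (fun ρ _ => ?_)
                        rw [ph_add]
                        ring
                have h3 : MM π a (EE μ₀ K) (r + 1) (fun i => ∑ ρ ∈ P.support.erase μ₀,
                    (-(v * coeff ρ P)) * ph a (ρ + ν) i) := by
                  refine MM.sum _ (fun ρ i => (-(v * coeff ρ P)) * ph a (ρ + ν) i) ?_
                  intro ρ hρ
                  rw [Finset.mem_erase] at hρ
                  obtain ⟨hρne, hρs⟩ := hρ
                  by_cases hdv : π ∣ coeff ρ P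
                  · obtain ⟨c', hc'⟩ := hdv
                    have h4 := (ihr (ρ + ν)).smulpi (-(v * c'))
                    have h5 : (fun i => (-(v * coeff ρ P)) * ph a (ρ + ν) i)
                        = fun i => π * (-(v * c')) * ph a (ρ + ν) i := by
                      funext i
                      rw [hc']
                      ring
                    rw [h5]
                    exact h4
                  · have hρS : ρ ∈ S' := by
                      rw [hS', Finset.mem_filter]
                      exact ⟨hρs, hdv⟩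
                    have hdeg : μ₀.degree ≤ ρ.degree := by
                      rw [hμ₀d]
                      exact hmin ρ hρS
                    refine MM.smul ?_ _
                    have dadd : ∀ σ τ : Fin 2 →₀ ℕ, (σ + τ).degree = σ.degree + τ.degree := by
                      intro σ τ
                      rw [deg2, deg2, deg2, Finsupp.add_apply, Finsupp.add_apply]
                      ring
                    have hμd : μ.degree = μ₀.degree + ν.degree := by rw [hν, dadd]
                    rcases lt_or_eq_of_le hdeg with hlt | heq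
                    · refine ihd (K - (ρ + ν).degree) ?_ ((ρ + ν) 0) (ρ + ν) rfl rfl
                      rw [dadd]
                      omega
                    · have hρS2 : ρ ∈ S'' := by
                        rw [hS'', Finset.mem_filter]
                        exact ⟨hρS, by rw [← heq, hμ₀d]⟩
                      have hle0 : ρ 0 ≤ μ₀ 0 := hmax ρ hρS2
                      have hlt0 : ρ 0 < μ₀ 0 := by
                        rcases lt_or_eq_of_le hle0 with h | h
                        · exact h
                        · exfalso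
                          apply hρne
                          rw [deg2, deg2] at heq
                          have h1 : ρ 1 = μ₀ 1 := by omega
                          ext t
                          fin_cases t
                          · exact h
                          · exact h1
                      refine ihx ((ρ + ν) 0) ?_ (ρ + ν) ?_ rfl
                      · rw [← hx, hν, Finsupp.add_apply, Finsupp.add_apply]
                        omega
                      · rw [dadd, ← hd, hμd, heq]
                have h6 : ph a μ = fun i => ∑ ρ ∈ P.support.erase μ₀,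
                    (-(v * coeff ρ P)) * ph a (ρ + ν) i := funext hsum
                rw [h6]
                exact h3
              · -- in E
                have hmem : μ ∈ EE μ₀ K := mem_EE.mpr ⟨hK, hle⟩
                refine ⟨fun μ' => if μ' = μ then 1 else 0, fun i => ?_⟩
                have : ∑ μ' ∈ EE μ₀ K, (if μ' = μ then (1 : R) else 0) * ph a μ' i = ph a μ i := by
                  rw [Finset.sum_eq_single μ]
                  · simp
                  · intro b _ hb
                    simp [hb]
                  · intro h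
                    exact absurd hmem h
                rw [this, sub_self]
                exact dvd_zero _
      intro μ
      exact key _ _ μ rfl rfl
  intro f
  have hf : MM π a (EE μ₀ K) K (fun i => ∑ μ ∈ f.support, coeff μ f * ph a μ i) := by
    refine MM.sum _ (fun μ i => coeff μ f * ph a μ i) ?_
    intro μ _
    exact (claim K le_rfl μ).smul _
  obtain ⟨c, hc⟩ := hf
  refine ⟨c, fun i => ?_⟩
  have h7 : π ^ K ∣ (∑ μ ∈ f.support, coeff μ f * ph a μ i) - ∑ μ ∈ EE μ₀ K, c μ * ph a μ i := hc i
  rw [← eval_ph] at h7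
  exact h7

end Pool.Agent.WB
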