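import Pool.Agent.helper78.WB.Defs2

/-!
# Project wb, Part III, row PBNA (after helper45's PBA)
-/

set_option autoImplicit false

namespace Pool.Agent.WB

open MvPolynomial

/-- `Box` is monotone in `δ`. -/
theorem PBNA_box {N : ℕ} {ξ δ δ' : ℝ} (hN : 1 ≤ N) (h : δ ≤ δ') {ζ : V3} (hb : Box N ξ δ ζ) :
    Box N ξ δ' ζ := by
  obtain ⟨h1, h2, h3, h4⟩ := hb
  have hN' : (1 : ℝ) ≤ (N : ℝ) := by exact_mod_cast hN
  have hle : (N : ℝ) ^ (ξ + δ) ≤ (N : ℝ) ^ (ξ + δ') :=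
    Real.rpow_le_rpow_of_exponent_le hN' (by linarith)
  exact ⟨h1.trans hle, h2.trans hle, h3, h4⟩

theorem PBNA : PBNA_stmt := by
  intro hL h2 h1 h0 ξ hξ0 hξ1 ε hε
  obtain ⟨C₀, NL, hL⟩ := hL ε hε
  obtain ⟨δ₂, hδ₂, N₂, h2⟩ := h2 ξ hξ0 hξ1 ε hε C₀
  obtain ⟨δ₁, hδ₁, N₁, h1⟩ := h1 ξ hξ0 hξ1 ε hε C₀
  refine ⟨min (min δ₁ δ₂) (1 - ξ), lt_min (lt_min hδ₁ hδ₂) (by linarith),
    max (max NL N₂) (max N₁ 1), ?_⟩
  intro N hN d p hp hh hd2 hdN S hS hbox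
  have hNL : NL ≤ N := le_trans (le_trans (le_max_left _ _) (le_max_left _ _)) hN
  have hN2 : N₂ ≤ N := le_trans (le_trans (le_max_right _ _) (le_max_left _ _)) hN
  have hN1 : N₁ ≤ N := le_trans (le_trans (le_max_left _ _) (le_max_right _ _)) hN
  have hNo : 1 ≤ N := le_trans (le_trans (le_max_right _ _) (le_max_right _ _)) hN
  have hN' : (1 : ℝ) ≤ (N : ℝ) := by exact_mod_cast hNo
  have hN0 : (0 : ℝ) < (N : ℝ) := by linarith
  have hNP : NP S := hS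
  have hδ1 : min (min δ₁ δ₂) (1 - ξ) ≤ δ₁ := le_trans (min_le_left _ _) (min_le_left _ _)
  have hδ2 : min (min δ₁ δ₂) (1 - ξ) ≤ δ₂ := le_trans (min_le_left _ _) (min_le_right _ _)
  have hδ3 : min (min δ₁ δ₂) (1 - ξ) ≤ 1 - ξ := min_le_right _ _
  have hNe : 0 ≤ (N : ℝ) ^ ε := Real.rpow_nonneg hN0.le _
  have hNx : 0 ≤ (N : ℝ) ^ ξ := Real.rpow_nonneg hN0.le _
  have hd0 : 0 ≤ (d : ℝ) ^ 2 := sq_nonneg _
  have hexp : (N : ℝ) ^ (ξ + ε) ≤ (N : ℝ) ^ ε * ((d : ℝ) ^ 2 + (N : ℝ) ^ ξ) := by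
    rw [Real.rpow_add hN0]
    nlinarith [mul_nonneg hNe hd0]
  by_cases hC : C₀ ≤ d
  · have hle := hL N hNL d hC hdN p hp hh S hNP (fun ζ hζ => by
      obtain ⟨⟨b1, b2, b3, b4⟩, hev⟩ := hbox ζ hζ
      refine ⟨b4, ?_, hev⟩
      have hpow : (N : ℝ) ^ (ξ + min (min δ₁ δ₂) (1 - ξ)) ≤ (N : ℝ) := by
        calc (N : ℝ) ^ (ξ + min (min δ₁ δ₂) (1 - ξ)) ≤ (N : ℝ) ^ (1 : ℝ) :=
              Real.rpow_le_rpow_of_exponent_le hN' (by linarith)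
          _ = (N : ℝ) := Real.rpow_one _
      intro i
      have hi : |((ζ i : ℤ) : ℝ)| ≤ (N : ℝ) := by
        fin_cases i
        · exact b1.trans hpow
        · exact b2.trans hpow
        · exact b3
      exact_mod_cast hi)
    calc (S.card : ℝ) ≤ (N : ℝ) ^ ε * (d : ℝ) ^ 2 := hle
      _ ≤ (N : ℝ) ^ ε * ((d : ℝ) ^ 2 + (N : ℝ) ^ ξ) :=
          mul_le_mul_of_nonneg_left (by linarith) hNe
  · have hC' : d ≤ C₀ := by omega
    rcases Nat.lt_or_ge (degreeOf 2 p) 2 with hlt | hge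
    · rcases Nat.lt_or_ge (degreeOf 2 p) 1 with hlt1 | hge1
      · have hz : degreeOf 2 p = 0 := by omega
        have hemp : S = ∅ := by
          rw [Finset.eq_empty_iff_forall_notMem]
          intro ζ hζ
          obtain ⟨⟨_, _, _, b4⟩, hev⟩ := hbox ζ hζ
          exact h0 d p hp hh hd2 hz ζ b4 hev
        rw [hemp, Finset.card_empty, Nat.cast_zero]
        exact mul_nonneg hNe (by linarith)
      · have hz : degreeOf 2 p = 1 := by omega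
        exact (h1 N hN1 d hd2 hC' p hp hh hz S hNP
          (fun ζ hζ => ⟨PBNA_box hNo hδ1 (hbox ζ hζ).1, (hbox ζ hζ).2⟩)).trans hexp
    · exact (h2 N hN2 d hd2 hC' p hp hh hge S hNP
        (fun ζ hζ => ⟨PBNA_box hNo hδ2 (hbox ζ hζ).1, (hbox ζ hζ).2⟩)).trans hexp

end Pool.Agent.WB
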