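import Pool.Agent.helper13.WB.IMG
import Pool.Agent.helper13.WB.ORD
import Pool.Agent.helper13.WB.PIG
import Pool.Agent.helper14.WB.PIGW
import Pool.Agent.helper15.WB.LCO
import Pool.Agent.helper2.WB.VALP
import Pool.Agent.helper20.WB.SEPF
import Pool.Agent.helper32.WB.LRED
import Pool.Agent.helper37.WB.PB2
import Pool.Agent.helper4.WB.DIM3
import Pool.Agent.helper40.WB.GC2
import Pool.Agent.helper44.WB.PB0
import Pool.Agent.helper5.WB.LOCE
import Pool.Agent.helper51.WB.CNTZ
import Pool.Agent.helper52.WB.DVB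
import Pool.Agent.helper54.WB.BAD
import Pool.Agent.helper55.WB.BZ
import Pool.Agent.helper64.WB.PDH
import Pool.Agent.helper65.WB.ZIN
import Pool.Agent.helper67.WB.LZ
import Pool.Agent.helper69.WB.GC
import Pool.Agent.helper70.WB.DUAL
import Pool.Agent.helper71.WB.PNZ
import Pool.Agent.helper73.WB.LVL
import Pool.Agent.helper74.WB.CELL2
import Pool.Agent.helper77.WB.VALC
import Pool.Agent.helper78.WB.LS
import Pool.Agent.helper78.WB.CELL
import Pool.Agent.helper78.WB.PBNA
import Pool.Agent.helper21.WB.SIZE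
import Pool.Agent.helper79.WB.PRJ
import Pool.Agent.helper83.WB.PB1
import Pool.Agent.helper88.WB.PBL
import Pool.Agent.helper89.WB.HGT
import Pool.Agent.helper99.WB.HQ
import Pool.Agent.helper99.WB.NDW
import Pool.Agent.helper22.WB.RES

/-!
# Project wb, Part III: assembly

`PBN : PBN_stmt` from the rows of the Part III specification.
-/

namespace Pool.Agent.WB

theorem PBN : PBN_stmt := by
  have dim3 : DIM3_stmt := DIM3
  have hq : HQ_stmt := HQ
  have bz : BZ_stmt := BZ dim3 hq SEPF
  have dual : DUAL_stmt := DUAL dim3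
  have lz : LZ_stmt := LZ dim3 ORD LOCE dual
  have img : IMG_stmt := IMG LS LCO LRED
  have size : SIZE_stmt := SIZE dim3
  have pig : PIG_stmt := PIG dim3
  have cell : CELL_stmt := CELL img pig size bz
  have valp : VALP_stmt := VALP dim3
  have bad : BAD_stmt := BAD lz PNZ valp VALC pig size bz
  have gc : GC_stmt := GC cell
  have pbl : PBL_stmt := PBL bad gc PRJ ZIN
  have cell2 : CELL2_stmt := CELL2 img PIGW NDW bz
  have gc2 : GC2_stmt := GC2 cell2 CNTZ PNZ
  have pb2 : PB2_stmt := PB2 bad gc2 PRJ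
  have hgt : HGT_stmt := HGT dim3 bz hq
  have pb1 : PB1_stmt := PB1 hgt RES PDH LVL DVB
  have pb0 : PB0_stmt := PB0 bz hq
  exact PBNA pbl pb2 pb1 pb0

end Pool.Agent.WB
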