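import Mathlib

/-!
# Project wb (MP_bb5cc8_nt, Wolff's exponent): definitions and the two interface statements

Page: /team-store/MP_bb5cc8_wolff_helper78.md
-/

set_option autoImplicit false

namespace Pool.Agent.WB

open MvPolynomial

/-- integer vectors `(x, y, w)` -/
abbrev V3 : Type := Fin 3 → ℤ

/-- determinant of the first two coordinates -/
def dt (ζ η : V3) : ℤ := ζ 0 * η 1 - η 0 * ζ 1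

/-- the lattice point `(u, v)` lies on the line of `ζ = (x, y, w)`: `y u - x v = w` -/
def onL (u v : ℤ) (ζ : V3) : Prop := ζ 1 * u - ζ 0 * v = ζ 2

/-- pairwise non-proportional first two coordinates -/
def Sep (S : Finset V3) : Prop := ∀ ζ ∈ S, ∀ η ∈ S, ζ ≠ η → dt ζ η ≠ 0

/-- the size conditions of a chart: `X = N ^ ξ`, loss `N ^ δ` -/
def Box (N : ℕ) (ξ δ : ℝ) (ζ : V3) : Prop :=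
  |((ζ 0 : ℤ) : ℝ)| ≤ (N : ℝ) ^ (ξ + δ) ∧ |((ζ 1 : ℤ) : ℝ)| ≤ (N : ℝ) ^ (ξ + δ) ∧
    |((ζ 2 : ℤ) : ℝ)| ≤ (N : ℝ) ∧ IsCoprime (ζ 0) (ζ 1)

/-- The chart lemma (Part II of the page). -/
def CL_stmt : Prop :=
  ∀ ξ : ℝ, 0 < ξ → ξ < 1 → ∀ ε : ℝ, 0 < ε → ∃ δ : ℝ, 0 < δ ∧ ∃ N₀ : ℕ, ∀ N : ℕ, N₀ ≤ N →
    ∀ (A B : Finset V3) (F : Finset (V3 × V3)),
      (∀ e ∈ F, e.1 ∈ A ∧ e.2 ∈ B) →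
      (∀ ζ ∈ A, Box N ξ δ ζ ∧ (N : ℝ) ^ (ξ - δ) ≤ max |((ζ 0 : ℤ) : ℝ)| |((ζ 1 : ℤ) : ℝ)|) →
      (∀ ζ ∈ B, Box N ξ δ ζ ∧ (N : ℝ) ^ (ξ - δ) ≤ max |((ζ 0 : ℤ) : ℝ)| |((ζ 1 : ℤ) : ℝ)|) →
      Sep A → Sep B →
      (∀ e ∈ F, (dt e.1 e.2).natAbs.Prime ∧ (N : ℝ) ^ ξ ≤ ((dt e.1 e.2).natAbs : ℝ) ∧
        ∃ u v : ℤ, onL u v e.1 ∧ onL u v e.2) →
      (∀ ζ η η' : V3, (ζ, η) ∈ F → (ζ, η') ∈ F → ∀ u v : ℤ, onL u v ζ → onL u v η → onL u v η' →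
        η = η') →
      (F.card : ℝ) ≤ (N : ℝ) ^ (3 * ξ + ε)

/-- Points on an irreducible form of degree `d ≥ 2` (Part III of the page). -/
def PB_stmt : Prop :=
  ∀ ξ : ℝ, 0 < ξ → ξ < 1 → ∀ ε : ℝ, 0 < ε → ∃ δ : ℝ, 0 < δ ∧ ∃ N₀ : ℕ, ∀ N : ℕ, N₀ ≤ N →
    ∀ (d : ℕ) (p : MvPolynomial (Fin 3) ℤ), Irreducible p → p.IsHomogeneous d → 2 ≤ d → d ≤ N →
      ∀ S : Finset V3, Sep S → (∀ ζ ∈ S, Box N ξ δ ζ ∧ eval ζ p = 0) →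
        (S.card : ℝ) ≤ (N : ℝ) ^ ε * ((d : ℝ) ^ 2 + (N : ℝ) ^ ξ)

/-- The theorem (for the problem file), Part I derives it from `CL_stmt`. -/
def WB_stmt : Prop :=
  ∀ α : ℝ, 1 / 2 < α → α < 1 → ∀ ξ : ℝ, 0 < ξ → ξ ≤ α - 1 / 2 → ξ < 1 - α → 2 * α - 1 < 3 * ξ →
    ∀ ε : ℝ, 0 < ε → ∃ N₀ : ℕ, ∀ N : ℕ, N₀ ≤ N → ∀ a : (p : ℕ) → ZMod p,
      (N : ℝ) ^ (2 - 2 * α + ξ - ε) ≤
        ({n : ℕ | 1 ≤ n ∧ n ≤ N ∧ ∃ p : ℕ, p.Prime ∧ (N : ℝ) ^ α ≤ p ∧ (p : ℝ) < 2 * (N : ℝ) ^ α ∧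
          (n : ZMod p) = a p}.ncard : ℝ)

end Pool.Agent.WB
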