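import Pool.Agent.helper78.WB.SpecIII

/-!
# Project wb, version 2 (all `α` in `(1/2, 1)`): interface statements

Page: /team-store/MP_bb5cc8_wolff_helper78.md, section VERSION 2.
-/

set_option autoImplicit false

namespace Pool.Agent.WB

open MvPolynomial

/-- Points on an irreducible form of degree `d ≥ 2`, for pairwise non-proportional vectors. -/
def PBN_stmt : Prop :=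
  ∀ ξ : ℝ, 0 < ξ → ξ < 1 → ∀ ε : ℝ, 0 < ε → ∃ δ : ℝ, 0 < δ ∧ ∃ N₀ : ℕ, ∀ N : ℕ, N₀ ≤ N →
    ∀ (d : ℕ) (p : MvPolynomial (Fin 3) ℤ), Irreducible p → p.IsHomogeneous d → 2 ≤ d → d ≤ N →
      ∀ S : Finset V3, NP S → (∀ ζ ∈ S, Box N ξ δ ζ ∧ eval ζ p = 0) →
        (S.card : ℝ) ≤ (N : ℝ) ^ ε * ((d : ℝ) ^ 2 + (N : ℝ) ^ ξ)

/-- PBNA. Assembly of Part III: `C₀` from PBL with `ε / 2`; `d ≥ C₀`: PBL (`Box` gives `|ζ i| ≤ N`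
when `ξ + δ ≤ 1`); `d < C₀`: by `degreeOf 2 p = 0, 1, ≥ 2` PB0, PB1, PB2. -/
def PBNA_stmt : Prop := PBL_stmt → PB2_stmt → PB1_stmt → PB0_stmt → PBN_stmt

/-- The chart lemma, version 2. -/
def CL2_stmt : Prop :=
  ∀ ξ lam ε : ℝ, 0 < lam → lam < ξ → ξ + lam < 1 → 0 < ε → ∃ δ : ℝ, 0 < δ ∧ ∃ N₀ : ℕ,
    ∀ N : ℕ, N₀ ≤ N → ∀ r : ℕ, 1 ≤ r → (N : ℝ) ^ (ξ - lam + ε) ≤ (r : ℝ) →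
    ∀ (A B : Finset V3) (F : Finset (V3 × V3)),
      (∀ e ∈ F, e.1 ∈ A ∧ e.2 ∈ B) →
      (∀ ζ ∈ A, Box N ξ δ ζ ∧ (N : ℝ) ^ (ξ - δ) ≤ max |((ζ 0 : ℤ) : ℝ)| |((ζ 1 : ℤ) : ℝ)|) →
      (∀ ζ ∈ B, Box N ξ δ ζ ∧ (N : ℝ) ^ (ξ - δ) ≤ max |((ζ 0 : ℤ) : ℝ)| |((ζ 1 : ℤ) : ℝ)|) →
      (A.card : ℝ) ≤ (N : ℝ) ^ (2 * ξ + 2 * lam + δ) →
      (B.card : ℝ) ≤ (N : ℝ) ^ (2 * ξ + 2 * lam + δ) →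
      NP A → NP B →
      (∀ e ∈ F, (dt e.1 e.2).natAbs.Prime ∧ (N : ℝ) ^ ξ ≤ ((dt e.1 e.2).natAbs : ℝ) ∧
        ∃ u v : ℤ, onL u v e.1 ∧ onL u v e.2) →
      (∀ ζ ζ' η : V3, (ζ, η) ∈ F → (ζ', η) ∈ F → ζ 0 = ζ' 0 → ζ 1 = ζ' 1 → ζ = ζ') →
      (∀ ζ η η' : V3, (ζ, η) ∈ F → (ζ, η') ∈ F → η 0 = η' 0 → η 1 = η' 1 → η = η') →
      (∀ u v : ℤ, {e : V3 × V3 | e ∈ F ∧ onL u v e.1 ∧ onL u v e.2}.ncard ≤ 4 * r ^ 2) →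
      (F.card : ℝ) < (r : ℝ) * (N : ℝ) ^ (2 * ξ + 4 * lam - δ)

/-- The theorem: Wolff's exponent for all `α`. Part I derives it from `CL2_stmt`. -/
def WBA_stmt : Prop :=
  ∀ α : ℝ, 1 / 2 < α → α < 1 → ∀ ε : ℝ, 0 < ε → ∃ N₀ : ℕ, ∀ N : ℕ, N₀ ≤ N →
    ∀ a : (p : ℕ) → ZMod p,
      (N : ℝ) ^ (3 / 2 - α - ε) ≤
        ({n : ℕ | 1 ≤ n ∧ n ≤ N ∧ ∃ p : ℕ, p.Prime ∧ (N : ℝ) ^ α ≤ p ∧ (p : ℝ) < 2 * (N : ℝ) ^ α ∧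
          (n : ZMod p) = a p}.ncard : ℝ)

end Pool.Agent.WB
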