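import Pool.Agent.helper78.WB.Defs

/-!
# Project wb, Part III: points on an irreducible form (`PB_stmt`)

Page: /team-store/MP_bb5cc8_wolff_helper78.md, Part III.

Row `X` is a file `Pool/Agent/<seat>/WB/<X>.lean`, namespace `Pool.Agent.WB`, with
`theorem X (h : Y_stmt) ... : X_stmt` (the rows used are named in the docstring; take them as
hypotheses). No double quotes in files, no `convert` / `congr!`, no `native_decide`.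
-/

set_option autoImplicit false

namespace Pool.Agent.WB

open MvPolynomial

/-- number of monomials of degree `n` in three variables -/
def s3 (n : ℕ) : ℕ := (n + 1) * (n + 2) / 2

/-- pairwise non-proportional -/
def NP (S : Finset V3) : Prop :=
  ∀ ζ ∈ S, ∀ η ∈ S, ζ ≠ η → ∃ i i' : Fin 3, ζ i * η i' ≠ ζ i' * η i

/-- `f` restricted to `ζ + ξ`, `ξ_j = 0`, a polynomial in the other two coordinates of `ξ` -/
noncomputable def loc {R : Type} [CommRing R] (j : Fin 3) (ζ : Fin 3 → R) :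
    MvPolynomial (Fin 3) R →ₐ[R] MvPolynomial (Fin 2) R :=
  aeval (Fin.insertNth j (C (ζ j) : MvPolynomial (Fin 2) R)
    (fun t : Fin 2 => X t + C (ζ (j.succAbove t))))

/-- no terms of degree `< m` -/
def ordGE {R : Type} [CommRing R] (m : ℕ) (f : MvPolynomial (Fin 2) R) : Prop :=
  ∀ μ : Fin 2 →₀ ℕ, μ.degree < m → coeff μ f = 0

/-- reduction of a vector -/
def redv (ℓ : ℕ) (ζ : V3) : Fin 3 → ZMod ℓ := fun i => ((ζ i : ℤ) : ZMod ℓ)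

/-- reduction of a polynomial -/
noncomputable def redp (ℓ : ℕ) (p : MvPolynomial (Fin 3) ℤ) : MvPolynomial (Fin 3) (ZMod ℓ) :=
  map (Int.castRingHom (ZMod ℓ)) p

/-- the functions on `C` given by the values mod `q` of integer forms of degree `n` -/
def valSet (n q : ℕ) (C : Finset V3) : Set (C → ZMod q) :=
  {g | ∃ Q : MvPolynomial (Fin 3) ℤ, Q.IsHomogeneous n ∧
    ∀ ζ : C, g ζ = ((eval ζ.1 Q : ℤ) : ZMod q)}

/-- DIM3. The forms of degree `n` in three variables are free of rank `s3 n`.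
PROOF. The monomials of degree `n` are a basis (`homogeneousSubmodule_eq_finsupp_supported`,
`Finsupp.supportedEquivFinsupp` or `Module.Basis` on the subtype `{μ | μ.degree = n}`); their
number is the number of `(a, b)` with `a + b ≤ n`, that is `(n + 1) (n + 2) / 2`. -/
def DIM3_stmt : Prop :=
  (∀ n : ℕ, Nat.card {μ : Fin 3 →₀ ℕ // μ.degree = n} = s3 n) ∧
  ∀ (R : Type) [CommRing R] [Nontrivial R] (n : ℕ),
    Module.Finite R (homogeneousSubmodule (Fin 3) R n) ∧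
    Module.Free R (homogeneousSubmodule (Fin 3) R n) ∧
    Module.finrank R (homogeneousSubmodule (Fin 3) R n) = s3 n

/-- HQ. Quotients of forms are forms.
PROOF. `q = p r₀`. `r = homogeneousComponent (e - d) r₀`. Compare the components of degree `e` of
`q = ∑ p (r₀)_i` (each `p (r₀)_i` is homogeneous of degree `d + i`); `q ≠ 0` gives `d ≤ e`. -/
def HQ_stmt : Prop :=
  ∀ (R : Type) [CommRing R] [IsDomain R] (p q : MvPolynomial (Fin 3) R) (d e : ℕ),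
    p.IsHomogeneous d → p ≠ 0 → q.IsHomogeneous e → q ≠ 0 → p ∣ q →
    d ≤ e ∧ ∃ r : MvPolynomial (Fin 3) R, r.IsHomogeneous (e - d) ∧ q = p * r

/-- SEPF. Separating forms.
PROOF. Product over `η ∈ S`, `η ≠ ζ`, of a linear form vanishing at `η` and not at `ζ`
(`η_i' X_i - η_i X_i'` with `ζ i * η i' ≠ ζ i' * η i`), times `X_i ^ (T - (card - 1))` with
`ζ i ≠ 0`. -/
def SEPF_stmt : Prop :=
  ∀ (S : Finset V3), NP S → ∀ ζ ∈ S, ζ ≠ 0 → ∀ T : ℕ, S.card ≤ T →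
    ∃ f : MvPolynomial (Fin 3) ℤ, f.IsHomogeneous T ∧ eval ζ f ≠ 0 ∧
      ∀ η ∈ S, η ≠ ζ → eval η f = 0

/-- BZ. Bezout. Uses DIM3, HQ, SEPF.
PROOF. (Ranks of `ℤ`-modules; Mathlib has rank-nullity over domains.) `T = d + e + S.card`,
`R_n = homogeneousSubmodule (Fin 3) ℤ n`. Linear map `Φ : R_(T-d) × R_(T-e) → R_T`,
`(A, B) ↦ p A + q B`. Kernel: `p A = - q B`, `p` is prime (UFD) and does not divide `q`, so
`B = p C` with `C ∈ R_(T-d-e)` (HQ; `B = 0` trivial), `A = - q C`: rank of the kernel is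
`≤ s3 (T - d - e)` (it is the image of `R_(T-d-e)` under `C ↦ (-qC, pC)`). So the rank of the image
of `Φ` is `≥ s3 (T-d) + s3 (T-e) - s3 (T-d-e)`. The image lies in the kernel of the evaluation
`R_T → (S → ℤ)`, whose image has rank `S.card` (SEPF: it contains non-zero multiples of all unit
vectors). Hence `S.card ≤ s3 T - s3 (T-d) - s3 (T-e) + s3 (T-d-e) = d e`. (`q = 0` is excluded by
`¬ p ∣ q`.) -/
def BZ_stmt : Prop :=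
  ∀ (p q : MvPolynomial (Fin 3) ℤ) (d e : ℕ), Irreducible p → p.IsHomogeneous d → 1 ≤ d →
    q.IsHomogeneous e → ¬ p ∣ q → ∀ S : Finset V3, NP S →
    (∀ ζ ∈ S, ζ ≠ 0 ∧ eval ζ p = 0 ∧ eval ζ q = 0) → S.card ≤ d * e

/-- ORD. Properties of `ordGE`.
PROOF. (1), (2) `coeff_mul`: if `ν + ν' = μ` then `ν.degree ≤ μ.degree`. (3) induction, more
generally `ordGE a f`, `ordGE b g` give `ordGE (a + b) (f * g)`. (4) strong induction on the degree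
of `μ`: `0 = coeff μ (L * h) = coeff 0 L * coeff μ h + ∑` of `coeff ν L * coeff ν' h` with
`ν + ν' = μ`, `ν ≠ 0`, so `ν'.degree < μ.degree`. -/
def ORD_stmt : Prop :=
  ∀ (K : Type) [Field K] (m : ℕ),
    (∀ f g : MvPolynomial (Fin 2) K, ordGE m f → ordGE m g → ordGE m (f + g)) ∧
    (∀ f g : MvPolynomial (Fin 2) K, ordGE m f → ordGE m (f * g)) ∧
    (∀ f : MvPolynomial (Fin 2) K, ordGE 1 f → ordGE m (f ^ m)) ∧
    (∀ L h : MvPolynomial (Fin 2) K, coeff 0 L ≠ 0 → ordGE m (L * h) → ordGE m h)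

/-- LOCE. (1) constant term of `loc j ζ f`. (2) a form of degree `n < m` whose localisation has
order `≥ m` is zero.
PROOF. (1) `coeff 0 = eval 0`, and `eval 0 (loc j ζ f) = eval ζ f` (`eval` of `aeval`).
(2) `loc j ζ f` has total degree `≤ n < m` (each variable goes to a polynomial of degree `≤ 1`), so
`ordGE m` says that it is `0`. Then (translate back, an algebra automorphism of the ring in two
variables) `aeval (Fin.insertNth j (C (ζ j)) X) f = 0`. `f` homogeneous of degree `n`: its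
coefficient at the exponent `μ` is determined by `μ` without the `j`-th entry (`μ j = n - rest`), and
`aeval ...` has the coefficient `coeff μ f * (ζ j) ^ (μ j)` at that exponent; `ζ j ≠ 0`. -/
def LOCE_stmt : Prop :=
  ∀ (K : Type) [Field K] (j : Fin 3) (ζ : Fin 3 → K),
    (∀ f : MvPolynomial (Fin 3) K, coeff 0 (loc j ζ f) = eval ζ f) ∧
    (ζ j ≠ 0 → ∀ (f : MvPolynomial (Fin 3) K) (n m : ℕ), f.IsHomogeneous n → n < m →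
      ordGE m (loc j ζ f) → f = 0)

/-- DUAL. Dual forms. Uses DIM3.
PROOF. `R_k = homogeneousSubmodule (Fin 3) K k`, finite dimensional of dimension `s3 k`. The
functionals `ev_ζ`, `ζ ∈ Z`, have no common zero in `R_k` except `0`, so they span the dual
(`Module.Dual`: the dual annihilator of the span is zero), choose a basis of the dual among them
(`exists_linearIndependent` / `Module.Basis.ofSpan`), `Z'` with `s3 k` elements; the dual basis gives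
`L ζ` (e.g. the evaluation map `R_k → (Z' → K)` is injective between spaces of the same dimension,
hence bijective: take preimages of `Pi.single ζ 1`). -/
def DUAL_stmt : Prop :=
  ∀ (K : Type) [Field K] (k : ℕ) (Z : Finset (Fin 3 → K)),
    (∀ g : MvPolynomial (Fin 3) K, g.IsHomogeneous k → (∀ ζ ∈ Z, eval ζ g = 0) → g = 0) →
    ∃ Z' : Finset (Fin 3 → K), Z' ⊆ Z ∧ Z'.card = s3 k ∧
      ∃ L : (Fin 3 → K) → MvPolynomial (Fin 3) K, ∀ ζ ∈ Z', (L ζ).IsHomogeneous k ∧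
        eval ζ (L ζ) = 1 ∧ ∀ η ∈ Z', η ≠ ζ → eval η (L ζ) = 0

/-- LZ. Points of multiplicity `≥ m` on a form of degree `d`. Uses DIM3, ORD, LOCE, DUAL.
PROOF. `T = m (k + 1) - 1`. DUAL gives `Z'`, `L`. The linear map
`R_(T-d) × (Z' → R_(m-1)) → R_T`, `(g, h) ↦ f g + ∑ (L ζ) ^ m * h ζ` (degrees: `d + (T - d) = T`,
`m k + m - 1 = T`) is injective: suppose the sum is `0`. Fix `ζ ∈ Z'` and its `j`; apply
`loc j ζ`. `loc f` has order `≥ m` (hypothesis), for `η ≠ ζ` `loc (L η)` has constant term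
`eval ζ (L η) = 0`, so its `m`-th power has order `≥ m`. So `loc (L ζ) ^ m * loc (h ζ)` has order
`≥ m`, `coeff 0 (loc (L ζ) ^ m) = 1`, so `loc (h ζ)` has order `≥ m` (ORD 4) and `h ζ = 0` (LOCE 2
with `n = m - 1`). Then `f g = 0`, `g = 0`. Compare dimensions:
`s3 (T - d) + s3 k * s3 (m - 1) ≤ s3 T` and `s3 (m - 1) = m (m + 1) / 2`. -/
def LZ_stmt : Prop :=
  ∀ (K : Type) [Field K] (f : MvPolynomial (Fin 3) K) (d k m : ℕ), f.IsHomogeneous d → f ≠ 0 →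
    1 ≤ m → d + 1 ≤ m * (k + 1) → ∀ Z : Finset (Fin 3 → K),
    (∀ ζ ∈ Z, ∃ j : Fin 3, ζ j ≠ 0 ∧ ordGE m (loc j ζ f)) →
    (∀ g : MvPolynomial (Fin 3) K, g.IsHomogeneous k → (∀ ζ ∈ Z, eval ζ g = 0) → g = 0) →
    s3 (m * (k + 1) - 1 - d) + s3 k * (m * (m + 1) / 2) ≤ s3 (m * (k + 1) - 1)

/-- LS. The span lemma.
PROOF. `m₀` = the least degree of an exponent whose coefficient is not divisible by `π`
(`m₀ ≤ m`), `μ₀` = among the exponents of degree `m₀` with coefficient not divisible by `π` the one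
with largest entry at `0`; its coefficient is a unit. `E` = exponents `μ` with `μ.degree < K` and
not `μ₀ ≤ μ`. Number of `μ ∈ E` of degree `k`: `k + 1 ≤ m₀` for `k < m₀`, and
`(k + 1) - (k - m₀ + 1) = m₀` for `m₀ ≤ k < K`; so at most `m k` of degree `< k`.
`Fun = ι → R`, `φ μ = (∏ a_i^μ)_i`, `M_r = span (φ μ, μ ∈ E) + π^r Fun`. Claim by induction on
`r ≤ K`: `φ μ ∈ M_r` for all `μ`. `r = 0` clear. Step `r → r + 1 ≤ K`: `φ μ` for `μ.degree ≥ K` is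
in `π^K Fun`. For smaller degrees induct on (`K - degree`, entry at `0`): `μ ∈ E` clear. Otherwise
`μ = μ₀ + ν`; multiply `P(a_i) = ∑ c_ρ a_i^ρ = 0` by `a_i^ν`:
`c_(μ₀) φ μ = - ∑_(ρ ≠ μ₀) c_ρ φ (ρ + ν)`; terms with `π ∣ c_ρ` are in `π M_r ⊆ M_(r+1)`; the other
`ρ` have degree `m₀` and smaller entry at `0` (same degree of `ρ + ν`, smaller entry) or degree
`> m₀`: in `M_(r+1)` by the inner induction. Finally `f(a_i) = ∑ coeff · φ`. -/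
def LS_stmt : Prop :=
  ∀ (R : Type) [CommRing R] (π : R), (∀ c : R, IsUnit c ∨ π ∣ c) →
    ∀ (ι : Type) (a : ι → Fin 2 → R), (∀ i t, π ∣ a i t) →
    ∀ P : MvPolynomial (Fin 2) R, (∀ i, eval (a i) P = 0) →
    ∀ (m : ℕ) (μ₁ : Fin 2 →₀ ℕ), μ₁.degree ≤ m → ¬ π ∣ coeff μ₁ P → ∀ K : ℕ,
    ∃ E : Finset (Fin 2 →₀ ℕ), (∀ k : ℕ, (E.filter (fun μ => μ.degree < k)).card ≤ m * k) ∧
      ∀ f : MvPolynomial (Fin 2) R, ∃ c : (Fin 2 →₀ ℕ) → R, ∀ i,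
        π ^ K ∣ eval (a i) f - ∑ μ ∈ E, c μ * ∏ t : Fin 2, a i t ^ μ t

/-- LCO. Local coordinates in `ℤ_[ℓ]`.
PROOF. `u = ζ j / ζ₁ j` (both are units of `ℤ_[ℓ]`), `a t = ζ (j.succAbove t) / u - ζ₁ (j.succAbove t)`
which is divisible by `ℓ` because `ζ i * ζ₁ j - ζ j * ζ₁ i` is. So `ζ = u • (ζ₁ + ξ)` with `ξ_j = 0`
and the other coordinates `a`; homogeneity. (`PadicInt`: an integer prime to `ℓ` is a unit:
`PadicInt.isUnit_iff`, `PadicInt.norm_int_lt_one_iff_dvd`; divisibility in `ℤ_[ℓ]` of integers by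
powers of `ℓ` is divisibility in `ℤ`.) -/
def LCO_stmt : Prop :=
  ∀ (ℓ : ℕ) [Fact ℓ.Prime] (j : Fin 3) (ζ₁ ζ : V3), ¬ (ℓ : ℤ) ∣ ζ₁ j → ¬ (ℓ : ℤ) ∣ ζ j →
    (∀ i i' : Fin 3, (ℓ : ℤ) ∣ ζ i * ζ₁ i' - ζ i' * ζ₁ i) →
    ∃ (u : ℤ_[ℓ]) (a : Fin 2 → ℤ_[ℓ]), IsUnit u ∧ (∀ t, (ℓ : ℤ_[ℓ]) ∣ a t) ∧
      ∀ (n : ℕ) (Q : MvPolynomial (Fin 3) ℤ), Q.IsHomogeneous n →
        ((eval ζ Q : ℤ) : ℤ_[ℓ]) =
          u ^ n * eval a (loc j (fun i => ((ζ₁ i : ℤ) : ℤ_[ℓ])) (map (Int.castRingHom ℤ_[ℓ]) Q))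

/-- LRED. Coefficients of the localisation over `ℤ_[ℓ]` and over `ZMod ℓ`.
PROOF. The ring homomorphism `PadicInt.toZMod` sends `loc j ζ₁ p` over `ℤ_[ℓ]` to
`loc j (redv ℓ ζ₁) (redp ℓ p)` (`map` commutes with `aeval`); its kernel is generated by `ℓ`. -/
def LRED_stmt : Prop :=
  ∀ (ℓ : ℕ) [Fact ℓ.Prime] (j : Fin 3) (ζ₁ : V3) (p : MvPolynomial (Fin 3) ℤ)
    (μ : Fin 2 →₀ ℕ),
    coeff μ (loc j (redv ℓ ζ₁) (redp ℓ p)) = 0 ↔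
      (ℓ : ℤ_[ℓ]) ∣ coeff μ (loc j (fun i => ((ζ₁ i : ℤ) : ℤ_[ℓ])) (map (Int.castRingHom ℤ_[ℓ]) p))

/-- IMG. Few value functions on a class. Uses LS, LCO, LRED.
PROOF. `R = ℤ_[ℓ]`, `π = ℓ` (a `p`-adic integer is a unit or divisible by `ℓ`). For `ζ ∈ C` take
`u_ζ, a_ζ` from LCO; `P = loc j ζ₁ p`, `P(a_ζ) = 0` since `u_ζ^d P(a_ζ) = eval ζ p = 0`. LRED gives an
exponent of degree `≤ m` with coefficient not divisible by `ℓ`. LS gives `E`. For a form `Q` of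
degree `n`: `Q(ζ) ≡ u_ζ^n ∑_(μ ∈ E) c_μ a_ζ^μ mod ℓ^K`. Since `ℓ^(μ.degree) ∣ a_ζ^μ`, the class mod
`ℓ^K` of `Q(ζ)` for all `ζ ∈ C` depends only on the classes of `c_μ` mod `ℓ^(K - μ.degree)`
(truncated subtraction: nothing for degree `≥ K`), and every `c` in `ℤ_[ℓ]` is congruent to an integer
of `[0, ℓ^(K-μ.degree))`: at most `∏_(μ ∈ E) ℓ^(K - μ.degree)` functions, and
`∑_(μ ∈ E) (K - μ.degree) = ∑_(k=1..K) #{μ ∈ E : μ.degree < k} ≤ ∑_(k=1..K) m k = m K (K+1) / 2`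
(write `K - deg = #{k ∈ [1,K] : deg < k}` and exchange). If `K = 0`: one function. -/
def IMG_stmt : Prop :=
  ∀ (ℓ : ℕ) [Fact ℓ.Prime] (j : Fin 3) (C : Finset V3) (p : MvPolynomial (Fin 3) ℤ)
    (d m K n : ℕ), p.IsHomogeneous d →
    (∀ ζ ∈ C, ¬ (ℓ : ℤ) ∣ ζ j ∧ eval ζ p = 0) →
    (∀ ζ ∈ C, ∀ η ∈ C, ∀ i i' : Fin 3, (ℓ : ℤ) ∣ ζ i * η i' - ζ i' * η i) →
    (∃ ζ₁ ∈ C, ¬ ordGE (m + 1) (loc j (redv ℓ ζ₁) (redp ℓ p))) →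
    (valSet n (ℓ ^ K) C).ncard ≤ ℓ ^ (m * (K * (K + 1) / 2))

/-- SIZE. PROOF. `eval` is a sum over the exponents of degree `n`, `s3 n` of them (DIM3). -/
def SIZE_stmt : Prop :=
  ∀ (n H N : ℕ) (Q : MvPolynomial (Fin 3) ℤ) (ζ : V3), Q.IsHomogeneous n →
    (∀ μ, |coeff μ Q| ≤ (H : ℤ)) → (∀ i, |ζ i| ≤ (N : ℤ)) →
    |eval ζ Q| ≤ (s3 n : ℤ) * H * (N : ℤ) ^ n

/-- PIG. Pigeonhole. Uses DIM3 (number of exponents).
PROOF. The `(H+1)^(s3 n)` forms with coefficients in `{0, …, H}` (functions from the exponents of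
degree `n` to `Fin (H+1)`) map to `valSet n q C`, which is finite; two have the same values mod `q`;
take the difference. -/
def PIG_stmt : Prop :=
  ∀ (n q H : ℕ) (C : Finset V3), 0 < q → (valSet n q C).ncard < (H + 1) ^ s3 n →
    ∃ Q : MvPolynomial (Fin 3) ℤ, Q ≠ 0 ∧ Q.IsHomogeneous n ∧ (∀ μ, |coeff μ Q| ≤ (H : ℤ)) ∧
      ∀ ζ ∈ C, (q : ℤ) ∣ eval ζ Q

/-- CELL. Uses IMG, PIG, SIZE, BZ.
PROOF. `K = 2 K' - 1`, `H = ℓ^K'`, `n = d - 1`. IMG: at most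
`ℓ^(m K (K+1)/2) = ℓ^(m K K') ≤ ℓ^(K' s3 n) < (H+1)^(s3 n)` value functions mod `ℓ^K`
(`(K+1)/2 = K'`). PIG gives `Q ≠ 0` of degree `n`; `|Q(ζ)| ≤ s3 n H N^n < ℓ^(K'-1) ℓ^K' = ℓ^K`, so
`Q(ζ) = 0` on `C`. `Q` has degree `d - 1 < d`, so `p ∤ Q` (HQ or degrees). BZ. -/
def CELL_stmt : Prop :=
  ∀ (ℓ : ℕ) [Fact ℓ.Prime] (j : Fin 3) (N d m K' : ℕ) (p : MvPolynomial (Fin 3) ℤ),
    Irreducible p → p.IsHomogeneous d → 2 ≤ d → 1 ≤ K' → m * (2 * K' - 1) ≤ s3 (d - 1) →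
    s3 (d - 1) * N ^ (d - 1) < ℓ ^ (K' - 1) →
    ∀ C : Finset V3, NP C →
      (∀ ζ ∈ C, (∀ i, |ζ i| ≤ (N : ℤ)) ∧ ¬ (ℓ : ℤ) ∣ ζ j ∧ eval ζ p = 0) →
      (∀ ζ ∈ C, ∀ η ∈ C, ∀ i i' : Fin 3, (ℓ : ℤ) ∣ ζ i * η i' - ζ i' * η i) →
      (∃ ζ₁ ∈ C, ¬ ordGE (m + 1) (loc j (redv ℓ ζ₁) (redp ℓ p))) →
      C.card ≤ d * (d - 1)

/-- PNZ. An irreducible form of degree `≥ 1` over `ℤ` is non-zero mod every prime.
PROOF. Otherwise `C ℓ ∣ p`, `p = C ℓ * r`, `p` irreducible, `C ℓ` is not a unit, so `r` is a unit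
and `p` has degree `0`. -/
def PNZ_stmt : Prop :=
  ∀ (ℓ : ℕ), ℓ.Prime → ∀ (d : ℕ) (p : MvPolynomial (Fin 3) ℤ), Irreducible p →
    p.IsHomogeneous d → 1 ≤ d → redp ℓ p ≠ 0

/-- VALP. Uses DIM3.
PROOF. The value functions mod `ℓ` are the image of `R_n(ZMod ℓ) → (C → ZMod ℓ)` (a form over
`ZMod ℓ` lifts to `ℤ`), linear, with non-zero kernel, so of rank `≤ s3 n - 1`. -/
def VALP_stmt : Prop :=
  ∀ (ℓ : ℕ) [Fact ℓ.Prime] (n : ℕ) (C : Finset V3) (g : MvPolynomial (Fin 3) (ZMod ℓ)),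
    g ≠ 0 → g.IsHomogeneous n → (∀ ζ ∈ C, eval (redv ℓ ζ) g = 0) →
    (valSet n ℓ C).ncard ≤ ℓ ^ (s3 n - 1)

/-- VALC. Chinese remainder: value functions mod a product of coprime numbers inject into the
product of the value sets. For a finite set of primes. -/
def VALC_stmt : Prop :=
  ∀ (n : ℕ) (C : Finset V3) (LL : Finset ℕ), (∀ ℓ ∈ LL, ℓ.Prime) →
    (valSet n (∏ ℓ ∈ LL, ℓ) C).ncard ≤ ∏ ℓ ∈ LL, (valSet n ℓ C).ncard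

/-- BAD. Uses LZ, PNZ, VALP, VALC, PIG, SIZE, BZ.
PROOF. For `ℓ ∈ LL`: `redp ℓ p ≠ 0` is a form of degree `d`; LZ over `ZMod ℓ` with
`Z = V.image (redv ℓ)`: its conclusion contradicts the hypothesis on `s3`, so there is a form
`g ≠ 0` of degree `k` over `ZMod ℓ` vanishing on `Z`. VALP, VALC: at most `Λ^(s3 k - 1)` value
functions mod `Λ = ∏ ℓ`. `B = s3 k * N^k ≥ 1`, `H = (Λ - 1) / B` (natural division):
`(H + 1) B ≥ Λ`, so `(H+1)^s B^s ≥ Λ^s > Λ^(s-1) B^s` (as `Λ > B^s`), `s = s3 k ≥ 1`. PIG gives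
`Q ≠ 0` of degree `k`, `|Q(ζ)| ≤ B H ≤ Λ - 1 < Λ`, so `Q(ζ) = 0`. `k < d`: `p ∤ Q`. BZ. (`N = 0`:
then `V` is empty.) -/
def BAD_stmt : Prop :=
  ∀ (N d k m : ℕ) (p : MvPolynomial (Fin 3) ℤ), Irreducible p → p.IsHomogeneous d → k < d →
    1 ≤ m → d + 1 ≤ m * (k + 1) →
    s3 (m * (k + 1) - 1) < s3 (m * (k + 1) - 1 - d) + s3 k * (m * (m + 1) / 2) →
    ∀ LL : Finset ℕ, (∀ ℓ ∈ LL, ℓ.Prime) → (s3 k * N ^ k) ^ s3 k < ∏ ℓ ∈ LL, ℓ →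
    ∀ V : Finset V3, NP V → (∀ ζ ∈ V, ζ ≠ 0 ∧ (∀ i, |ζ i| ≤ (N : ℤ)) ∧ eval ζ p = 0) →
      (∀ ℓ ∈ LL, ∀ ζ ∈ V, ∃ j : Fin 3, ¬ (ℓ : ℤ) ∣ ζ j ∧
        ordGE m (loc j (redv ℓ ζ) (redp ℓ p))) →
      V.card ≤ d * k

/-- PRJ. `J` primes in `(x, 2^J x]`. PROOF. Bertrand's postulate (`Nat.exists_prime_lt_and_le_two_mul`)
for `x, 2x, 4x, …`. -/
def PRJ_stmt : Prop :=
  ∀ (J x : ℕ), 1 ≤ x → ∃ LL : Finset ℕ, LL.card = J ∧ ∀ ℓ ∈ LL, ℓ.Prime ∧ x < ℓ ∧ ℓ ≤ 2 ^ J * x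

/-- ZIN. Arithmetic. PROOF. `T + 1 = m (k+1)`, `T - d + 1 ≥ (5/6) m (k+1)`;
`2 s3 (T-d) ≥ (25/36) M²`, `M = m (k+1)`; `2 s3 k m(m+1)/2 ≥ (k+1)² m² / 2 = M²/2`;
`2 s3 T = M (M + 1)`, `25/36 + 18/36 = 43/36 > 1 + 1/M` as `M ≥ 12`. -/
def ZIN_stmt : Prop :=
  ∀ (d k m : ℕ), 2 ≤ d → 1 ≤ m → 6 * d ≤ m * (k + 1) →
    s3 (m * (k + 1) - 1) < s3 (m * (k + 1) - 1 - d) + s3 k * (m * (m + 1) / 2)

/-- GC. The good points of a prime. Uses CELL.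
PROOF. Sort the points by `(j, class)`, where `j` is a good chart of the point and the class is
`t ↦ ζ (j.succAbove t) / ζ j ∈ ZMod ℓ`: at most `3 ℓ²` cells, the points of one cell are
proportional mod `ℓ`; CELL (with `m - 1` for `m`). -/
def GC_stmt : Prop :=
  ∀ (ℓ : ℕ) [Fact ℓ.Prime] (N d m K' : ℕ) (p : MvPolynomial (Fin 3) ℤ),
    Irreducible p → p.IsHomogeneous d → 2 ≤ d → 1 ≤ K' → 1 ≤ m →
    (m - 1) * (2 * K' - 1) ≤ s3 (d - 1) → s3 (d - 1) * N ^ (d - 1) < ℓ ^ (K' - 1) →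
    ∀ C : Finset V3, NP C → (∀ ζ ∈ C, (∀ i, |ζ i| ≤ (N : ℤ)) ∧ eval ζ p = 0 ∧
        ∃ j : Fin 3, ¬ (ℓ : ℤ) ∣ ζ j ∧ ¬ ordGE m (loc j (redv ℓ ζ) (redp ℓ p))) →
      C.card ≤ 3 * ℓ ^ 2 * (d * (d - 1))

/-- PBL. Large degree. Uses BAD, GC, PRJ, ZIN.
PROOF. `ε ≤ 1` without loss. `ε' = ε / 8`, `κ = ε' / 16`, `k = ⌈6 / κ⌉`,
`J = ⌈(k s3 k + 1) / ε'⌉ + 1`, `C₀ = k + 2` and large enough. `N` large, `x = ⌈N^ε'⌉`, `LL` from PRJ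
(`2^J x ≤ N^(2ε')`), `∏ LL ≥ N^(ε' J) > (s3 k N^k)^(s3 k)`. `m = ⌊κ d⌋ + 1`: `m (k+1) ≥ κ d 6 / κ = 6 d`.
`S_bad` = points such that for all `ℓ ∈ LL` and all `j` with `ℓ ∤ ζ j` the order is `≥ m` (such `j`
exists as `ζ 0, ζ 1` are coprime): BAD gives `≤ d k ≤ d²`. The other points are good for some
`ℓ ∈ LL`: GC with `K' = ⌊(s3 (d-1) / (m-1) + 1) / 2⌋` if `m > 1` (if `m = 1` take `K' = 2 d`...;
any `K'` with `(m-1)(2K'-1) ≤ s3 (d-1)`). Check `s3 (d-1) N^(d-1) < ℓ^(K'-1)`: `ℓ ≥ N^ε'`,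
`s3 (d-1) ≤ N²`, so `d + 1 ≤ ε' (K' - 1)` suffices; `K' - 1 ≥ s3 (d-1)/(2 (m-1)) - 1 - 1/2...
≥ (d+1)/(4 κ) - 2 = 4 (d+1)/ε' - 2`, and `ε' (K'-1) ≥ 4 (d+1) - 2 ε' ≥ d + 1`. Total
`≤ d² + J · 3 N^(4ε') d² ≤ N^ε d²`. (`N^(2ε')` bounds every `ℓ`.) Strictness: `d + 1 < 4 (d+1) - 2ε'`. -/
def PBL_stmt : Prop :=
  ∀ ε : ℝ, 0 < ε → ∃ C₀ N₀ : ℕ, ∀ N : ℕ, N₀ ≤ N → ∀ d : ℕ, C₀ ≤ d → d ≤ N →
    ∀ p : MvPolynomial (Fin 3) ℤ, Irreducible p → p.IsHomogeneous d → ∀ S : Finset V3, NP S →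
      (∀ ζ ∈ S, IsCoprime (ζ 0) (ζ 1) ∧ (∀ i, |ζ i| ≤ (N : ℤ)) ∧ eval ζ p = 0) →
      (S.card : ℝ) ≤ (N : ℝ) ^ ε * (d : ℝ) ^ 2

/-- NDW. PROOF. `degreeOf 2` is additive on products of non-zero polynomials over a domain. -/
def NDW_stmt : Prop :=
  ∀ (p Q : MvPolynomial (Fin 3) ℤ), 2 ≤ degreeOf 2 p → Q ≠ 0 → degreeOf 2 Q ≤ 1 → ¬ p ∣ Q

/-- CNTZ. Points mod `ℓ` in one chart.
PROOF. The polynomial in two variables `f(…, 1, …)` is non-zero (dehomogenisation is injective on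
forms) of total degree `≤ d`; Schwartz–Zippel in Mathlib (`MvPolynomial.schwartz_zippel_totalDegree`)
over the whole field. -/
def CNTZ_stmt : Prop :=
  ∀ (ℓ : ℕ) [Fact ℓ.Prime] (d : ℕ) (f : MvPolynomial (Fin 3) (ZMod ℓ)) (j : Fin 3),
    f.IsHomogeneous d → f ≠ 0 →
    {c : Fin 2 → ZMod ℓ | eval (Fin.insertNth j (1 : ZMod ℓ) c : Fin 3 → ZMod ℓ) f = 0}.ncard ≤
      d * ℓ

/-- PIGW. Pigeonhole with forms `A(x,y) + w B(x,y)`.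
PROOF. As PIG, with `n + 1` coefficients of `A` in `{0..H₁}` and `n` coefficients of `B` in
`{0..H₂}`. -/
def PIGW_stmt : Prop :=
  ∀ (n q H₁ H₂ : ℕ) (C : Finset V3), 0 < q → 1 ≤ n →
    (valSet n q C).ncard < (H₁ + 1) ^ (n + 1) * (H₂ + 1) ^ n →
    ∃ Q : MvPolynomial (Fin 3) ℤ, Q ≠ 0 ∧ Q.IsHomogeneous n ∧ degreeOf 2 Q ≤ 1 ∧
      (∀ ζ ∈ C, (q : ℤ) ∣ eval ζ Q) ∧
      ∀ (ζ : V3) (X₀ N : ℕ), |ζ 0| ≤ (X₀ : ℤ) → |ζ 1| ≤ (X₀ : ℤ) → |ζ 2| ≤ (N : ℤ) →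
        |eval ζ Q| ≤ ((n + 1) * H₁ * X₀ ^ n + n * H₂ * X₀ ^ (n - 1) * N : ℤ)

/-- CELL2. Uses IMG (with `m = 1`, `K = 2 n + 1`), PIGW, NDW, BZ.
PROOF. `K = 2n+1`: value functions mod `ℓ^K` are `≤ ℓ^((2n+1)(n+1))`. `H₁ = ⌊ℓ^K / (4 (n+1) X₀^n)⌋`,
`H₂ = ⌊ℓ^K / (4 (n+1) X₀^(n-1) N)⌋`: `(H₁+1)^(n+1) (H₂+1)^n >
ℓ^(K (2n+1)) / ((4n+4)^(2n+1) X₀^(2n²) N^n) ≥ ℓ^((2n+1)(n+1))` by the hypothesis
(`(2n+1)² - (2n+1)(n+1) = n (2n+1)`). PIGW: `|Q(ζ)| ≤ ℓ^K/4 + ℓ^K/4 < ℓ^K`, so `Q = 0` on `C`;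
`p ∤ Q` (NDW); BZ. -/
def CELL2_stmt : Prop :=
  ∀ (ℓ : ℕ) [Fact ℓ.Prime] (j : Fin 3) (N X₀ d n : ℕ) (p : MvPolynomial (Fin 3) ℤ),
    Irreducible p → p.IsHomogeneous d → 2 ≤ d → 2 ≤ degreeOf 2 p → 1 ≤ n → 1 ≤ X₀ → 1 ≤ N →
    (4 * n + 4) ^ (2 * n + 1) * X₀ ^ (2 * n ^ 2) * N ^ n ≤ ℓ ^ (n * (2 * n + 1)) →
    ∀ C : Finset V3, NP C →
      (∀ ζ ∈ C, |ζ 0| ≤ (X₀ : ℤ) ∧ |ζ 1| ≤ (X₀ : ℤ) ∧ |ζ 2| ≤ (N : ℤ) ∧ ¬ (ℓ : ℤ) ∣ ζ j ∧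
        eval ζ p = 0) →
      (∀ ζ ∈ C, ∀ η ∈ C, ∀ i i' : Fin 3, (ℓ : ℤ) ∣ ζ i * η i' - ζ i' * η i) →
      (∃ ζ₁ ∈ C, ¬ ordGE 2 (loc j (redv ℓ ζ₁) (redp ℓ p))) →
      C.card ≤ d * n

/-- GC2. The good points of a prime, `w`-degree `≥ 2`. Uses CELL2, CNTZ, PNZ.
PROOF. As GC, but the class `c = ζ (j.succAbove ·) / ζ j` of a point is a zero of `redp ℓ p` in the
chart `j`, so there are at most `3 d ℓ` cells. -/
def GC2_stmt : Prop :=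
  ∀ (ℓ : ℕ) [Fact ℓ.Prime] (N X₀ d n : ℕ) (p : MvPolynomial (Fin 3) ℤ),
    Irreducible p → p.IsHomogeneous d → 2 ≤ d → 2 ≤ degreeOf 2 p → 1 ≤ n → 1 ≤ X₀ → 1 ≤ N →
    (4 * n + 4) ^ (2 * n + 1) * X₀ ^ (2 * n ^ 2) * N ^ n ≤ ℓ ^ (n * (2 * n + 1)) →
    ∀ C : Finset V3, NP C →
      (∀ ζ ∈ C, |ζ 0| ≤ (X₀ : ℤ) ∧ |ζ 1| ≤ (X₀ : ℤ) ∧ |ζ 2| ≤ (N : ℤ) ∧ eval ζ p = 0 ∧
        ∃ j : Fin 3, ¬ (ℓ : ℤ) ∣ ζ j ∧ ¬ ordGE 2 (loc j (redv ℓ ζ) (redp ℓ p))) →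
      C.card ≤ 3 * (d * ℓ) * (d * n)

/-- PB2. Bounded degree, `w`-degree `≥ 2`. Uses BAD, GC2, PRJ.
PROOF. `δ, ε₁` with `(ξ + δ)(1 + ε₁) ≤ ξ + ε/2`, `ξ + δ ≤ 1`, `X₀ = ⌊N^(ξ+δ)⌋`,
`n = ⌈1/(ε₁ ξ)⌉ + 1`, `x = ⌈N^((ξ+δ)(1+ε₁))⌉`, `LL` from PRJ with `J` such that
`x^J > (s3 (d-1) N^(d-1))^(s3 (d-1))` for all `d ≤ C₀` (`x ≥ N^ξ`). `m = 2`, `k = d - 1` in BAD:
`m (k+1) - 1 = 2d - 1`, `s3 (d-1) + 3 s3 (d-1) = 2 d (d+1) > d (2d+1) = s3 (2d-1)`. So the points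
with order `≥ 2` for all `ℓ ∈ LL` in all charts number `≤ d (d-1)`, the others
`≤ J · 3 d (2^J x) d n` (GC2); its hypothesis: exponents
`n (2n+1) (ξ+δ)(1+ε₁) > 2n² (ξ+δ) + n` as `2 n² ε₁ (ξ+δ) > n`. Sum `≤ N^(ξ+ε)`. -/
def PB2_stmt : Prop :=
  ∀ ξ : ℝ, 0 < ξ → ξ < 1 → ∀ ε : ℝ, 0 < ε → ∀ C₀ : ℕ, ∃ δ : ℝ, 0 < δ ∧ ∃ N₀ : ℕ,
    ∀ N : ℕ, N₀ ≤ N → ∀ d : ℕ, 2 ≤ d → d ≤ C₀ → ∀ p : MvPolynomial (Fin 3) ℤ, Irreducible p →
      p.IsHomogeneous d → 2 ≤ degreeOf 2 p → ∀ S : Finset V3, NP S →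
      (∀ ζ ∈ S, Box N ξ δ ζ ∧ eval ζ p = 0) → (S.card : ℝ) ≤ (N : ℝ) ^ (ξ + ε)

/-- HGT. Height of a form with many points. Uses DIM3, BZ, HQ.
PROOF. Let `S' ⊆ S` be a maximal subset whose evaluation vectors (monomials of degree `d`) are
linearly independent over `ℚ`; `r = S'.card < s3 d` because `p ≠ 0` vanishes on it. If `r ≥ 1`
Siegel's lemma (`Int.Matrix.exists_ne_zero_int_vec_norm_le`, matrix of the values of the monomials,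
norm `≤ N^d`) gives a form `Q ≠ 0` of degree `d` with coefficients `≤ (s3 d N^d)^(r/(s3 d - r)) ≤
(s3 d N^d)^(s3 d)` vanishing on `S'`, hence on `S`. (`r = 0`: `S` empty.) `S.card > d d`, so `p ∣ Q`
(BZ), `Q = c p` with an integer `c ≠ 0` (HQ, degree 0), so the coefficients of `p` are not larger. -/
def HGT_stmt : Prop :=
  ∀ (N d : ℕ) (p : MvPolynomial (Fin 3) ℤ), 1 ≤ N → Irreducible p → p.IsHomogeneous d → 1 ≤ d →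
    ∀ S : Finset V3, NP S → (∀ ζ ∈ S, ζ ≠ 0 ∧ (∀ i, |ζ i| ≤ (N : ℤ)) ∧ eval ζ p = 0) →
      d * d < S.card → ∀ μ, |coeff μ p| ≤ (((s3 d * N ^ d) ^ s3 d : ℕ) : ℤ)

/-- RES. The resultant. `B = pderiv 2 p` (independent of `w` as `degreeOf 2 p = 1`), `p = A + w B`.
PROOF. `A, B` as polynomials in `x, y` (forms of degree `d`, `d - 1`). Claim: if `U A + V B = 0`
with forms `U, V` in `x, y` of degrees `d - 2`, `d - 1`, then `U = V = 0`: `p U = A U + w B U =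
B (w U - V)`; `p` is prime; `p ∤ B` (`B ≠ 0` has `w`-degree `0`); so `p ∣ w U - V`, a form of degree
`d - 1 < d`: `w U = V`, so `U = V = 0`. Siegel's lemma for the `2 d` unknowns (coefficients of `U`
(`d - 1`), `V` (`d`), and `R`) and the `2 d - 1` equations `U A + V B = R x^(2d-2)`, matrix entries
`≤ H`: a non-zero solution with entries `≤ (2 d H)^(2d-1)`; `R ≠ 0` by the claim. The same for
`y^(2d-2)` gives `R'`. For a zero `ζ` of `p` with coprime `z = (x, y)`: `A(z) = - w B(z)`, so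
`b = B(z)` divides `R x^(2d-2)` and `R' y^(2d-2)`, hence `R R'` (coprimality); if `b = 0` then
`A(z) = 0` and `R x^(2d-2) = R' y^(2d-2) = 0`, impossible. Result with `R R'`. -/
def RES_stmt : Prop :=
  ∀ (H d : ℕ) (p : MvPolynomial (Fin 3) ℤ), 1 ≤ H → Irreducible p → p.IsHomogeneous d → 2 ≤ d →
    degreeOf 2 p = 1 → (∀ μ, |coeff μ p| ≤ (H : ℤ)) →
    ∃ R : ℤ, R ≠ 0 ∧ |R| ≤ (((2 * d * H) ^ (4 * d) : ℕ) : ℤ) ∧
      ∀ ζ : V3, IsCoprime (ζ 0) (ζ 1) → eval ζ p = 0 →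
        eval ![ζ 0, ζ 1, 0] (pderiv 2 p) ≠ 0 ∧ eval ![ζ 0, ζ 1, 0] (pderiv 2 p) ∣ R

/-- PDH. `B = pderiv 2 p` is a non-zero form of degree `d - 1` without `w`. -/
def PDH_stmt : Prop :=
  ∀ (d : ℕ) (p : MvPolynomial (Fin 3) ℤ), p.IsHomogeneous d → 1 ≤ d → degreeOf 2 p = 1 →
    pderiv 2 p ≠ 0 ∧ (pderiv 2 p).IsHomogeneous (d - 1) ∧ degreeOf 2 (pderiv 2 p) = 0

/-- LVL. Level sets of a binary form.
PROOF. `B(x,y) = ∑ β_i x^(g-i) y^i`. If `β_i ≠ 0` for some `i ≥ 1`: for `x ≠ 0` the polynomial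
`B(x, ·) - b` is non-zero (coefficient of `y^i`) of degree `≤ g`: `≤ g` values of `y`; for `x = 0`:
`β_g y^g = b ≠ 0` has `≤ g` solutions: total `≤ g (2 X₀ + 1)`. Otherwise `B = β x^g`, `g ≥ 1`: at most
two values of `x`, so `≤ 2 (2 X₀ + 1)`. -/
def LVL_stmt : Prop :=
  ∀ (g X₀ : ℕ) (B : MvPolynomial (Fin 3) ℤ) (b : ℤ), B.IsHomogeneous g → 1 ≤ g →
    degreeOf 2 B = 0 → B ≠ 0 → b ≠ 0 →
    {z : ℤ × ℤ | |z.1| ≤ (X₀ : ℤ) ∧ |z.2| ≤ (X₀ : ℤ) ∧ eval ![z.1, z.2, 0] B = b}.ncard ≤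
      (g + 2) * (2 * X₀ + 1)

/-- DVB. Divisor bound, `N ^ ε`, for numbers up to `N ^ C`.
PROOF. Search the library (a bound `divisors.card ≤ C_ε n^ε` is landed several times under
Pool/Agent); apply it with `ε / (2 C)`. -/
def DVB_stmt : Prop :=
  ∀ (ε : ℝ) (C : ℕ), 0 < ε → ∃ N₀ : ℕ, ∀ N : ℕ, N₀ ≤ N → ∀ R : ℕ, R ≠ 0 → R ≤ N ^ C →
    (R.divisors.card : ℝ) ≤ (N : ℝ) ^ ε

/-- PB1. Bounded degree, `w`-degree `1`. Uses HGT, RES, PDH, LVL, DVB.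
PROOF. If `S.card ≤ d d ≤ C₀²` done. Otherwise HGT: coefficients `≤ H = (s3 d N^d)^(s3 d)`, RES:
`R`, `|R| ≤ N^C` with `C = C(C₀)`; every `ζ ∈ S` has `B(z) = b ∣ R`; `≤ 2 N^(ε/4)` values `b` (DVB;
both signs), each value at most `(d + 1)(2 X₀ + 1)` times (LVL with `g = d - 1 ≥ 1`,
`X₀ = ⌊N^(ξ+δ)⌋`), and `ζ` is determined by `z` (`w = - A(z)/B(z)`; NP gives it too: same `z` and
`p = 0` forces the same `w`). -/
def PB1_stmt : Prop :=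
  ∀ ξ : ℝ, 0 < ξ → ξ < 1 → ∀ ε : ℝ, 0 < ε → ∀ C₀ : ℕ, ∃ δ : ℝ, 0 < δ ∧ ∃ N₀ : ℕ,
    ∀ N : ℕ, N₀ ≤ N → ∀ d : ℕ, 2 ≤ d → d ≤ C₀ → ∀ p : MvPolynomial (Fin 3) ℤ, Irreducible p →
      p.IsHomogeneous d → degreeOf 2 p = 1 → ∀ S : Finset V3, NP S →
      (∀ ζ ∈ S, Box N ξ δ ζ ∧ eval ζ p = 0) → (S.card : ℝ) ≤ (N : ℝ) ^ (ξ + ε)

/-- PB0. `w`-degree `0`, degree `≥ 2`: no zeros with coprime `(x, y)`. Uses BZ.
PROOF. `p(x₀, y₀, w) = 0` for all `w`. The form `q = y₀ X - x₀ Y` vanishes there as well. If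
`p ∤ q`, BZ bounds the number of the pairwise non-proportional vectors `(x₀, y₀, w)`, `w = 0..d`, by
`d`: contradiction. So `p ∣ q ≠ 0`, `d ≤ 1` (HQ or degrees). -/
def PB0_stmt : Prop :=
  ∀ (d : ℕ) (p : MvPolynomial (Fin 3) ℤ), Irreducible p → p.IsHomogeneous d → 2 ≤ d →
    degreeOf 2 p = 0 → ∀ ζ : V3, IsCoprime (ζ 0) (ζ 1) → eval ζ p ≠ 0

/-- PB (assembly of Part III): `PBL → PB2 → PB1 → PB0 → PB_stmt`.
PROOF. `C₀` from PBL with `ε / 2`; `d ≥ C₀`: PBL (`Box` gives `|ζ i| ≤ N` when `ξ + δ ≤ 1`);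
`d < C₀`: by `degreeOf 2 p = 0, 1, ≥ 2` PB0, PB1, PB2 with `ε`; `Sep` implies `NP`. -/
def PBA_stmt : Prop := PBL_stmt → PB2_stmt → PB1_stmt → PB0_stmt → PB_stmt

end Pool.Agent.WB
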