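import Pool.Agent.helper78.WB.Defs2

/-!
# Project wb, Part IIa: the form `G` vanishing on half of the vertices (II.1 - II.7)

Page: /team-store/MP_bb5cc8_wolff_helper78.md.
-/

set_option autoImplicit false

namespace Pool.Agent.WB

open MvPolynomial

/-- neighbours of `b` in `A` -/
def nbr (A : Finset V3) (F : Finset (V3 × V3)) (b : V3) : Finset V3 :=
  A.filter (fun ζ => (ζ, b) ∈ F)

/-- DY. A dyadic degree class.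
PROOF. Sort the `b ∈ B` with at least one neighbour by `k = Nat.log 2 (deg b)`,
`k ∈ {0, …, Nat.log 2 A.card}`; `F` is the disjoint union of the `Nat.log 2 A.card + 1` parts
`{e ∈ F : log (deg e.2) = k}`, one of them has at least the average; `θ = 2 ^ k`,
`B' = {b ∈ B : deg b ≠ 0, log (deg b) = k}`. -/
def DY_stmt : Prop :=
  ∀ (A B : Finset V3) (F : Finset (V3 × V3)), (∀ e ∈ F, e.1 ∈ A ∧ e.2 ∈ B) → F.Nonempty →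
    ∃ (θ : ℕ) (B' : Finset V3), 1 ≤ θ ∧ θ ≤ A.card ∧ B' ⊆ B ∧
      (∀ b ∈ B', θ ≤ (nbr A F b).card ∧ (nbr A F b).card < 2 * θ) ∧
      F.card ≤ (Nat.log 2 A.card + 1) * (F.filter (fun e => e.2 ∈ B')).card

/-- VAR. Second moment of a random subset (`χ` uniform, density `1 / K`).
PROOF. Write the count as `∑_(x ∈ U) 1_(χ x = 0)`, expand the square; the number of `χ` with
`χ x = 0` is `K ^ (card - 1)` and with `χ x = χ y = 0` (`x ≠ y`) `K ^ (card - 2)`. So the sum is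
`K ^ card * (U.card * (1 / K) * (1 - 1 / K))`. (Or by induction on `U`.) -/
def VAR_stmt : Prop :=
  ∀ (ι : Type) [Fintype ι] [DecidableEq ι] (U : Finset ι) (K : ℕ), 1 ≤ K →
    ∑ χ : ι → Fin K, (((U.filter (fun x => (χ x).val = 0)).card : ℝ) - (U.card : ℝ) / K) ^ 2 ≤
      (K : ℝ) ^ Fintype.card ι * ((U.card : ℝ) / K)

/-- SAMP. A random sample. Uses VAR.
PROOF. `ι = {x // x ∈ A}`, `S = {x : χ x = 0}`. If `B'` is empty take `S = ∅`; otherwise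
`A.card ≥ θ ≥ 32`. For a vertex `b`, `n_b = (Nb b).card ≥ θ`. Average over the `K ^ |A|` functions
`χ` of `|S| K / (4 |A|) + ∑_b (|Nb b ∩ S| - n_b / K)² (4 K² / n_b²) (2 / |B'|)` is at most
`1/4 + ∑_b (4 K / n_b) (2 / |B'|) ≤ 1/4 + 8 K / θ ≤ 1/2` (the first term: `∑_χ |S| = |A| K^(|A|-1)`;
it also follows from VAR: `∑_χ (|S| - |A|/K) = 0` is not needed if one uses
`|S| ≤ |A|/K + (|S| - |A|/K)²`-type bounds: e.g. by VAR and Chebyshev `|S| > 4|A|/K` for at most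
`K^|A| (|A|/K) / (3|A|/K)² ≤ K^|A| K/(9|A|) ≤ K^|A| / 9` functions, as `|A| ≥ θ ≥ 32 K`). So some `χ`
has `|S| ≤ 4 |A| / K` and `∑_b [bad b] (2 / |B'|) < 1`, where `b` is bad if `|Nb b ∩ S| < n_b/(2K)`
(then its term is `≥ 2 / |B'|`): fewer than half are bad. -/
def SAMP_stmt : Prop :=
  ∀ (A B' : Finset V3) (Nb : V3 → Finset V3) (θ K : ℕ), 1 ≤ K → 32 * K ≤ θ →
    (∀ b ∈ B', Nb b ⊆ A ∧ θ ≤ (Nb b).card) →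
    ∃ S : Finset V3, S ⊆ A ∧ S.card * K ≤ 4 * A.card ∧
      B'.card ≤ 2 * (B'.filter (fun b => θ ≤ 2 * K * (Nb b ∩ S).card)).card

/-- MU. Few vectors with the same determinant.
PROOF. For a fixed sign of `dt ζ η` two solutions differ in the first two coordinates by
`t (η 0, η 1)` with an integer `t` (`dt (ζ - ζ') η = 0`, `η 0, η 1` coprime), and
`|t| max(|η 0|, |η 1|) ≤ 2 N^(ξ+δ)`, so `|t| ≤ 2 N^(2δ)`: at most `4 N^(2δ) + 1` values; two signs;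
`ζ` is determined by its first two coordinates. `8 N^(2δ) + 2 ≤ 10 N^(2δ)`. -/
def MU_stmt : Prop :=
  ∀ (N : ℕ) (ξ δ : ℝ) (η : V3) (ℓ : ℕ) (A : Finset V3), 1 ≤ N → 0 ≤ δ →
    (∀ ζ ∈ A, Box N ξ δ ζ) → IsCoprime (η 0) (η 1) →
    (N : ℝ) ^ (ξ - δ) ≤ max |((η 0 : ℤ) : ℝ)| |((η 1 : ℤ) : ℝ)| →
    (∀ ζ ∈ A, (dt ζ η).natAbs = ℓ) →
    (∀ ζ ∈ A, ∀ ζ' ∈ A, ζ 0 = ζ' 0 → ζ 1 = ζ' 1 → ζ = ζ') →
    (A.card : ℝ) ≤ 10 * (N : ℝ) ^ (2 * δ)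

/-- SG. Siegel's lemma for forms. Uses DIM3.
PROOF. `S` empty: `G = X 0 ^ D`. Otherwise `Int.Matrix.exists_ne_zero_int_vec_norm_le` for the
matrix of the values of the `s3 D` monomials of degree `D` at the points of `S` (entries `≤ N^D`),
exponent `|S| / (s3 D - |S|) ≤ 1`. -/
def SG_stmt : Prop :=
  ∀ (N D : ℕ) (S : Finset V3), 1 ≤ N → (∀ ζ ∈ S, ∀ i, |ζ i| ≤ (N : ℤ)) → 2 * S.card ≤ s3 D →
    ∃ G : MvPolynomial (Fin 3) ℤ, G ≠ 0 ∧ G.IsHomogeneous D ∧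
      (∀ μ, |coeff μ G| ≤ ((s3 D * N ^ D : ℕ) : ℤ)) ∧ ∀ ζ ∈ S, eval ζ G = 0

/-- DIV. Two vectors whose lines meet in a lattice point are proportional modulo the prime `dt`.
PROOF. `w x' - w' x = (y x' - y' x) u`, `w y' - w' y = (x' y - x y') v`: all `2 × 2` minors are
divisible by `ℓ = |dt ζ η|`. `ζ ≠ 0` mod `ℓ` (coprime first coordinates), so `η = c ζ` mod `ℓ`,
`p(η) = c^d p(ζ) = 0` mod `ℓ`. Same with the roles exchanged. -/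
def DIV_stmt : Prop :=
  ∀ (ζ η : V3) (u v : ℤ) (d : ℕ) (p : MvPolynomial (Fin 3) ℤ), IsCoprime (ζ 0) (ζ 1) →
    IsCoprime (η 0) (η 1) → onL u v ζ → onL u v η → (dt ζ η).natAbs.Prime → p.IsHomogeneous d →
    (eval ζ p = 0 → dt ζ η ∣ eval η p) ∧ (eval η p = 0 → dt ζ η ∣ eval ζ p)

/-- VAN. A vertex with many neighbours on `G = 0` is on `G = 0`. Uses MU, DIV, SIZE.
PROOF. Suppose `G(b) ≠ 0`. By DIV every prime `|dt ζ b|`, `ζ ∈ T`, divides `G(b)`; by MU at least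
`T.card / (10 N^(2δ))` different primes occur, all `≥ N^ξ`; distinct primes: the product divides
`G(b)`, `|G(b)| ≤ s3 D · s3 D N^D · N^D ≤ N^(2D+6)` (SIZE; `s3 D ≤ N^3` as `D ≤ N`, `N ≥ 3`). So
`ξ · T.card / (10 N^(2δ)) ≤ 2 D + 6 ≤ 8 D`, `T.card ≤ 80 D N^(2δ) / ξ < N^(3δ) D` for large `N`. -/
def VAN_stmt : Prop :=
  ∀ ξ δ : ℝ, 0 < ξ → 0 < δ → ∃ N₀ : ℕ, ∀ N : ℕ, N₀ ≤ N → ∀ D : ℕ, 1 ≤ D → D ≤ N →
    ∀ G : MvPolynomial (Fin 3) ℤ, G.IsHomogeneous D →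
      (∀ μ, |coeff μ G| ≤ ((s3 D * N ^ D : ℕ) : ℤ)) →
    ∀ b : V3, (∀ i, |b i| ≤ (N : ℤ)) → IsCoprime (b 0) (b 1) →
      (N : ℝ) ^ (ξ - δ) ≤ max |((b 0 : ℤ) : ℝ)| |((b 1 : ℤ) : ℝ)| →
    ∀ T : Finset V3, (∀ ζ ∈ T, Box N ξ δ ζ ∧ eval ζ G = 0 ∧ (dt ζ b).natAbs.Prime ∧
        (N : ℝ) ^ ξ ≤ ((dt ζ b).natAbs : ℝ) ∧ ∃ u v : ℤ, onL u v ζ ∧ onL u v b) →
      (∀ ζ ∈ T, ∀ ζ' ∈ T, ζ 0 = ζ' 0 → ζ 1 = ζ' 1 → ζ = ζ') →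
      (N : ℝ) ^ (3 * δ) * D ≤ (T.card : ℝ) → eval b G = 0

/-- SV. The form `G`. Uses SAMP, SG, VAN.
PROOF. SAMP with `Nb b = nbr A F b`: `S ⊆ A`, `2 |S| K ≤ 8 |A| ≤ K s3 D`, so `2 |S| ≤ s3 D`; SG
gives `G`. If `θ ≤ 2 K |Nb b ∩ S|` then `T = Nb b ∩ S` has `|T| ≥ θ / (2K) ≥ N^(3δ) D`, so
`G(b) = 0` by VAN. -/
def SV_stmt : Prop :=
  ∀ ξ δ : ℝ, 0 < ξ → 0 < δ → ξ + δ ≤ 1 → ∃ N₀ : ℕ, ∀ N : ℕ, N₀ ≤ N →
    ∀ (θ D K : ℕ) (A B' : Finset V3) (F : Finset (V3 × V3)), 1 ≤ D → D ≤ N → 1 ≤ K →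
      32 * K ≤ θ → 8 * A.card ≤ K * s3 D → (N : ℝ) ^ (3 * δ) * D * (2 * K) ≤ (θ : ℝ) →
      (∀ ζ ∈ A, Box N ξ δ ζ) →
      (∀ b ∈ B', Box N ξ δ b ∧ (N : ℝ) ^ (ξ - δ) ≤ max |((b 0 : ℤ) : ℝ)| |((b 1 : ℤ) : ℝ)|) →
      (∀ e ∈ F, (dt e.1 e.2).natAbs.Prime ∧ (N : ℝ) ^ ξ ≤ ((dt e.1 e.2).natAbs : ℝ) ∧
        ∃ u v : ℤ, onL u v e.1 ∧ onL u v e.2) →
      (∀ ζ ζ' η : V3, (ζ, η) ∈ F → (ζ', η) ∈ F → ζ 0 = ζ' 0 → ζ 1 = ζ' 1 → ζ = ζ') →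
      (∀ b ∈ B', θ ≤ (nbr A F b).card) →
      ∃ G : MvPolynomial (Fin 3) ℤ, G ≠ 0 ∧ G.IsHomogeneous D ∧
        (∀ μ, |coeff μ G| ≤ ((s3 D * N ^ D : ℕ) : ℤ)) ∧
        B'.card ≤ 2 * (B'.filter (fun b => eval b G = 0)).card

end Pool.Agent.WB
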